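import Pool.Graph.R_seed8.Results.MP_e0aac0_nt.LocalLaw
import Pool.Graph.R_seed8.Results.MP_e0aac0_nt.AlmostAllShifts

set_option autoImplicit false

/-! Forms in several variables, boxes, and the first step. -/

namespace Pool.Agent.H68.OP

open Finset
open ArithmeticFunction (cardFactors)

variable {V : Type} [Fintype V] [DecidableEq V]

/-- The number of solutions of `s (m 1) + ... + s (m p) = s (m' 1) + ... + s (m' p)` with all `m i`, `m' i` in
`{1, ..., x}`. -/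
def energy (p x : ℕ) (s : ℕ → ℕ) : ℕ :=
  (((Fintype.piFinset fun _ : Fin p => Icc 1 x) ×ˢ (Fintype.piFinset fun _ : Fin p => Icc 1 x)).filter
    (fun q => ∑ i, s (q.1 i) = ∑ i, s (q.2 i))).card

/-- The family `s 1, ..., s x` lies in `[0, B N]` and for some `p ≤ P` the number of solutions of
`s (m 1) + ... + s (m p) = s (m' 1) + ... + s (m' p)` is at most `C x ^ (2 p) / N`. -/
def Spread (N B P : ℕ) (C : ℝ) (x : ℕ) (s : ℕ → ℕ) : Prop :=
  (∀ m ∈ Icc 1 x, s m ≤ B * N) ∧ ∃ p ≤ P, (energy p x s : ℝ) * N ≤ C * (x : ℝ) ^ (2 * p)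

/-- The density of the `n ≤ N` with `Ω(n) = l`. -/
noncomputable def dens (N l : ℕ) : ℝ := (1 / (N : ℝ)) * (((Icc 1 N).filter (fun n => cardFactors n = l)).card : ℝ)

/-- `log log N`. -/
noncomputable def ll (N : ℕ) : ℝ := Real.log (Real.log N)

/-- The box of the `x` with `1 ≤ x v ≤ X v` for all `v`. -/
def Box (X : V → ℕ) : Finset (V → ℕ) := Fintype.piFinset fun v => Icc 1 (X v)

/-- The form `∑_{v ∈ e} s_v(x_v) + T`. -/
def form (s : V → ℕ → ℕ) (e : Finset V) (T : ℕ) (x : V → ℕ) : ℕ := ∑ v ∈ e, s v (x v) + T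

lemma dens_eq (N l : ℕ) : Pool.Agent.Results.MP_e0aac0_nt.LocalLaw.dens N l = dens N l := rfl

lemma ll_eq (N : ℕ) : Pool.Agent.Results.MP_e0aac0_nt.LocalLaw.ll N = ll N := rfl

lemma spread1 (N B P : ℕ) (C : ℝ) (x : ℕ) (s : ℕ → ℕ) (h : Spread N B P C x s) :
    Pool.Agent.Results.MP_e0aac0_nt.LocalLaw.Spread N B P C x s := h

lemma spread2 (N B P : ℕ) (C : ℝ) (x : ℕ) (s : ℕ → ℕ) (h : Spread N B P C x s) :
    Pool.Agent.Results.MP_e0aac0_nt.AlmostAllShifts.Spread N B P C x s := h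

lemma energy_shift (p x : ℕ) (s : ℕ → ℕ) (c : ℕ) : energy p x (fun m => s m + c) = energy p x s := by
  unfold energy
  congr 1
  apply filter_congr
  intro q _
  rw [sum_add_distrib, sum_add_distrib]
  exact add_left_inj _

lemma spread_shift {N B P : ℕ} {C : ℝ} {x : ℕ} {s : ℕ → ℕ} (h : Spread N B P C x s) (c B' : ℕ)
    (hc : B * N + c ≤ B' * N) : Spread N B' P C x (fun m => s m + c) := by
  obtain ⟨h1, p, hp, h2⟩ := h
  refine ⟨fun m hm => ?_, p, hp, ?_⟩
  · have := h1 m hm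
    show s m + c ≤ B' * N
    omega
  · rw [energy_shift]
    exact h2

lemma mem_Box {X : V → ℕ} {x : V → ℕ} : x ∈ Box X ↔ ∀ i, x i ∈ Icc 1 (X i) := by
  unfold Box; rw [Fintype.mem_piFinset]

lemma update_mem {X : V → ℕ} {x : V → ℕ} (hx : x ∈ Box X) (i : V) {s : ℕ} (hs : s ∈ Icc 1 (X i)) :
    Function.update x i s ∈ Box X := by
  rw [mem_Box] at hx ⊢
  intro j
  by_cases h : j = i
  · subst h; rw [Function.update_self]; exact hs
  · rw [Function.update_of_ne h]; exact hx j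

lemma avg {M : Type*} [CommRing M] (X : V → ℕ) (Φ : (V → ℕ) → M) (i : V) :
    ∑ x ∈ Box X, ∑ s ∈ Icc 1 (X i), Φ (Function.update x i s) = X i * ∑ x ∈ Box X, Φ x := by
  rw [← sum_product']
  have h1 : ∑ p ∈ Box X ×ˢ Icc 1 (X i), Φ (Function.update p.1 i p.2) = ∑ p ∈ Box X ×ˢ Icc 1 (X i), Φ p.1 := by
    apply sum_nbij' (fun p => (Function.update p.1 i p.2, p.1 i)) (fun p => (Function.update p.1 i p.2, p.1 i))
    · rintro ⟨x, s⟩ hp
      rw [mem_product] at hp ⊢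
      exact ⟨update_mem hp.1 i hp.2, mem_Box.1 hp.1 i⟩
    · rintro ⟨x, s⟩ hp
      rw [mem_product] at hp ⊢
      exact ⟨update_mem hp.1 i hp.2, mem_Box.1 hp.1 i⟩
    · rintro ⟨x, s⟩ hp
      simp
    · rintro ⟨x, s⟩ hp
      simp
    · rintro ⟨x, s⟩ hp
      rfl
  rw [h1, sum_product]
  simp only [sum_const, Nat.card_Icc, Nat.add_sub_cancel, nsmul_eq_mul]
  rw [mul_sum]

lemma form_not {s : V → ℕ → ℕ} {e : Finset V} {T : ℕ} {x : V → ℕ} {i : V} {n : ℕ} (hi : i ∉ e) :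
    form s e T (Function.update x i n) = form s e T x := by
  unfold form
  congr 1
  apply sum_congr rfl
  intro v hv
  rw [Function.update_of_ne]
  rintro rfl
  exact hi hv

lemma form_full {s : V → ℕ → ℕ} {e : Finset V} {T : ℕ} {x : V → ℕ} {i : V} {n : ℕ} (hi : i ∈ e) (hs : ∀ m, s i m = m) :
    form s e T (Function.update x i n) = n + (∑ v ∈ e.erase i, s v (x v) + T) := by
  unfold form
  rw [← add_sum_erase e _ hi, Function.update_self, hs, add_assoc]
  congr 2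
  apply sum_congr rfl
  intro v hv
  rw [Function.update_of_ne (mem_erase.1 hv).1]

lemma form_pair {s : V → ℕ → ℕ} {e : Finset V} {T : ℕ} {x : V → ℕ} {i j : V} {n h : ℕ} (hij : i ≠ j) (hi : i ∈ e) (hj : j ∈ e)
    (hs : ∀ m, s i m = m) :
    form s e T (Function.update (Function.update x j h) i n) = n + (s j h + (∑ v ∈ (e.erase i).erase j, s v (x v) + T)) := by
  rw [form_full hi hs]
  congr 1
  rw [← add_sum_erase (e.erase i) _ (mem_erase.2 ⟨hij.symm, hj⟩), Function.update_self, add_assoc]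
  congr 2
  apply sum_congr rfl
  intro v hv
  rw [Function.update_of_ne (mem_erase.1 hv).1]

lemma sum_le_of_box {N B : ℕ} {X : V → ℕ} {s : V → ℕ → ℕ} (hs : ∀ v, ∀ m ∈ Icc 1 (X v), s v m ≤ B * N) {x : V → ℕ}
    (hx : x ∈ Box X) (e : Finset V) : ∑ v ∈ e, s v (x v) ≤ Fintype.card V * (B * N) := by
  calc ∑ v ∈ e, s v (x v) ≤ ∑ _v ∈ e, B * N := sum_le_sum fun v _ => hs v _ (mem_Box.1 hx v)
    _ = e.card * (B * N) := by rw [sum_const, smul_eq_mul]
    _ ≤ Fintype.card V * (B * N) := Nat.mul_le_mul_right _ (card_le_univ e)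

/-- the vector of the labels -/
def lab (f : V → ℕ → ℕ) (x : V → ℕ) : V → ℕ := fun v => f v (x v)

/-- the values of `Ω` at the forms -/
def om {R : ℕ} (s : V → ℕ → ℕ) (e : Fin R → Finset V) (T : Fin R → ℕ) (x : V → ℕ) : Fin R → ℕ :=
  fun r => cardFactors (form s (e r) (T r) x)

lemma lab_update (f : V → ℕ → ℕ) (y : V → ℕ) (i : V) (n : ℕ) :
    lab f (Function.update y i n) = fun v => if v = i then f i n else lab f y v := by
  funext v
  unfold lab
  by_cases h : v = i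
  · subst h
    rw [if_pos rfl, Function.update_self]
  · rw [if_neg h, Function.update_of_ne h]

/-- the fixed shifts -/
def tt {R : ℕ} (s : V → ℕ → ℕ) (e : Fin R → Finset V) (T : Fin R → ℕ) (i : V) (x : V → ℕ) : Fin R → ℕ :=
  fun r => if i ∈ e r then ∑ v ∈ (e r).erase i, s v (x v) + T r else 0

lemma om_update {R : ℕ} (s : V → ℕ → ℕ) (e : Fin R → Finset V) (T : Fin R → ℕ) (x : V → ℕ) (i j : V) (h n : ℕ)
    (hs : ∀ m, s i m = m) (hp : ∀ r, ¬ (i ∈ e r ∧ j ∈ e r)) :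
    om s e T (Function.update (Function.update x j h) i n) =
      fun r => if i ∈ e r then cardFactors (n + tt s e T i x r) else om s e T (Function.update x j h) r := by
  funext r
  unfold om tt
  by_cases hi : i ∈ e r
  · rw [if_pos hi, if_pos hi, form_full hi hs]
    congr 3
    apply sum_congr rfl
    intro v hv
    rw [Function.update_of_ne]
    rintro rfl
    exact hp r ⟨hi, (mem_erase.1 hv).2⟩
  · rw [if_neg hi, form_not hi]

lemma tt_le {R : ℕ} {N B : ℕ} {X : V → ℕ} {s : V → ℕ → ℕ} (hs : ∀ v, ∀ m ∈ Icc 1 (X v), s v m ≤ B * N) {x : V → ℕ}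
    (hx : x ∈ Box X) (e : Fin R → Finset V) (T : Fin R → ℕ) (hT : ∀ r, T r ≤ B * N) (i : V) (r : Fin R) :
    tt s e T i x r ≤ (B * (Fintype.card V + 2)) * N := by
  unfold tt
  split_ifs with hi
  · have h1 := sum_le_of_box hs hx ((e r).erase i)
    have h2 := hT r
    have h3 : (B * (Fintype.card V + 2)) * N = Fintype.card V * (B * N) + 2 * (B * N) := by ring
    omega
  · exact Nat.zero_le _

/-- the exceptional indices -/
lemma card_exc {M : ℕ} (E : Finset (Fin 1 → ℕ)) :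
    ((Icc 1 M).filter (fun h => (fun _ : Fin 1 => h) ∈ E)).card ≤ E.card := by
  apply card_le_card_of_injOn (fun h => fun _ : Fin 1 => h)
  · intro h hh
    exact (mem_filter.1 hh).2
  · intro a _ b _ hab
    exact congrFun hab 0

/-- numerical facts -/
lemma log_small (κ : ℝ) (hκ : 0 < κ) (A : ℕ) : ∃ N₀ : ℕ, ∀ N : ℕ, N₀ ≤ N → Real.log N ^ (-κ) ≤ 1 / ll N ^ A := by
  obtain ⟨N1, h1⟩ := Pool.Agent.TH445.OI.ev_L _ (Pool.Agent.TH445.OI.ev_pow A 1 κ hκ)
  obtain ⟨N2, hN2, hr⟩ := Pool.Agent.TH445.OI.rr_facts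
  refine ⟨max N1 N2, fun N hN => ?_⟩
  have g1 := h1 N (by omega)
  obtain ⟨-, -, v16, hL1⟩ := hr N (by omega)
  rw [one_mul] at g1
  have e1 : Real.log (Real.log (N : ℝ)) = ll N := rfl
  rw [e1] at g1 v16
  have hv0 : 0 < ll N := by linarith
  rw [Real.rpow_neg (by linarith), one_div]
  exact inv_anti₀ (by positivity) g1

lemma log_rate (κ : ℝ) (hκ : 0 < κ) : ∃ N₀ : ℕ, ∀ N : ℕ, N₀ ≤ N → Real.log N ^ (-κ) ≤
    Pool.Agent.Results.MP_e0aac0_nt.AlmostAllShifts.rate N := by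
  obtain ⟨N1, h1⟩ := log_small κ hκ 1
  obtain ⟨N2, hN2, hr⟩ := Pool.Agent.TH445.OI.rr_facts
  refine ⟨max N1 N2, fun N hN => ?_⟩
  have g1 := h1 N (by omega)
  obtain ⟨-, r2, -, -⟩ := hr N (by omega)
  rw [pow_one] at g1
  exact g1.trans r2

end Pool.Agent.H68.OP
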