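import Pool.Agent.H68.OP.Two
import Pool.Graph.R_seed8.Y842.QY.CluE

set_option autoImplicit false

/-! The Fourier transform of products of functions of `Ω` at two places. -/

namespace Pool.Agent.H68.OP

open Finset
open Pool.Agent.H807R2.Dav
open Pool.Agent.Y842.QY
open ArithmeticFunction (cardFactors)

lemma ee_same (x : ℝ) : Pool.Agent.Helper602.MK.ee x = ee x := by
  unfold Pool.Agent.Helper602.MK.ee ee
  congr 1
  ring

lemma sum_multiples (U : ℕ → ℝ) (hU : ∀ N, 0 ≤ U N) (K X : ℕ) (hK : 1 ≤ K) :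
    ∑ N ∈ Icc 1 X, U (K * N) / ((K * N : ℕ) : ℝ) ^ 2 ≤ ∑ M ∈ Icc 1 (K * X), U M / (M : ℝ) ^ 2 := by
  have e1 : ∑ N ∈ Icc 1 X, U (K * N) / ((K * N : ℕ) : ℝ) ^ 2 =
      ∑ M ∈ (Icc 1 X).image (fun N => K * N), U M / (M : ℝ) ^ 2 := by
    rw [sum_image]
    intro x _ y _ hxy
    exact Nat.eq_of_mul_eq_mul_left (by omega) hxy
  rw [e1]
  apply sum_le_sum_of_subset_of_nonneg
  · intro M hM
    rw [mem_image] at hM
    obtain ⟨N, hN, rfl⟩ := hM
    rw [mem_Icc] at hN ⊢
    refine ⟨?_, Nat.mul_le_mul_left _ hN.2⟩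
    have := Nat.mul_le_mul hK hN.1
    omega
  · intro M _ _
    exact div_nonneg (hU M) (by positivity)

lemma log_mul_le (K : ℕ) (hK : 1 ≤ K) (X : ℕ) (hX : K ≤ X) : Real.log ((K * X : ℕ) : ℝ) ≤ 2 * Real.log X := by
  have hX0 : (0 : ℝ) < X := by exact_mod_cast (by omega : 0 < X)
  have hK0 : (0 : ℝ) < K := by exact_mod_cast (by omega : 0 < K)
  have h1 : Real.log (K : ℝ) ≤ Real.log X := Real.log_le_log hK0 (by exact_mod_cast hX)
  push_cast
  rw [Real.log_mul hK0.ne' hX0.ne']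
  linarith

theorem four (K a c : ℕ) (hK : 1 ≤ K) (hac : a ≠ c) (ε : ℝ) (hε : 0 < ε) :
    ∃ X₀ : ℕ, ∀ X : ℕ, X₀ ≤ X → ∀ A B : ℕ → ℂ, (∀ l, ‖A l‖ ≤ 1) → (∀ l, ‖B l‖ ≤ 1) →
      ∃ W : ℕ → ℝ, (∀ N, 0 ≤ W N) ∧ (∀ N, 1 ≤ N → ∀ α : ℝ, ‖∑ n ∈ Icc 1 (K * N),
          (A (cardFactors (n + c)) * B (cardFactors (n + a)) - mB A N * mB B N) * ee ((n : ℝ) * α)‖ ≤ W N) ∧
        ∑ N ∈ Icc 1 X, W N / (N : ℝ) ^ 2 ≤ ε * Real.log X := by
  have hK0 : (0 : ℝ) < K := by exact_mod_cast (by omega : 0 < K)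
  have hK1 : (1 : ℝ) ≤ K := by exact_mod_cast hK
  obtain ⟨X₁, hX₁⟩ := pair_om a c hac (ε / (16 * K ^ 2)) (by positivity)
  obtain ⟨X₂, hX₂⟩ := pair_om c (c + 1) (by omega) (ε / (16 * K ^ 2)) (by positivity)
  obtain ⟨N₀, hN₀⟩ := mB_scale (ε / (16 * K)) (1 / K) (by positivity) (by positivity)
  obtain ⟨X₃, hX₃⟩ := Filter.eventually_atTop.1 ((Filter.tendsto_atTop.1
    (Real.tendsto_log_atTop.comp tendsto_natCast_atTop_atTop)) (16 * K * N₀ / ε + 1))
  refine ⟨X₁ + X₂ + X₃ + K + 2, fun X hX A B hA hB => ?_⟩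
  have hlog : 16 * K * N₀ / ε + 1 ≤ Real.log X := hX₃ X (by omega)
  have hlog1 : 1 ≤ Real.log X := by
    have : 0 ≤ 16 * (K : ℝ) * N₀ / ε := by positivity
    linarith
  have hKX : X ≤ K * X := Nat.le_mul_of_pos_left _ (by omega)
  have hlX := log_mul_le K hK X (by omega)
  obtain ⟨U1, hU1, hU1s⟩ := hX₁ (K * X) (by omega) A B hA hB
  obtain ⟨U2, hU2, hU2s⟩ := hX₂ (K * X) (by omega) (fun _ => 1) A (fun _ => by simp) hA
  have hU10 : ∀ N, 0 ≤ U1 N := fun N => (norm_nonneg _).trans (hU1 N 0)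
  have hU20 : ∀ N, 0 ≤ U2 N := fun N => (norm_nonneg _).trans (hU2 N 0)
  have hAm := mB_le A 1 zero_le_one hA
  have hBm := mB_le B 1 zero_le_one hB
  refine ⟨fun N => U1 (K * N) + U2 (K * N) + (K * N : ℕ) * (‖mB A (K * N) - mB A N‖ + ‖mB B (K * N) - mB B N‖),
    fun N => ?_, fun N hN α => ?_, ?_⟩
  · have := hU10 (K * N)
    have := hU20 (K * N)
    positivity
  · have g1 := hU1 (K * N) α
    have g2 := hU2 (K * N) α
    have e1 : ∑ n ∈ Icc 1 (K * N), (A (cardFactors (n + c)) * B (cardFactors (n + a)) - mB A N * mB B N) * ee ((n : ℝ) * α) =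
        ∑ n ∈ Icc 1 (K * N), A (cardFactors (n + c)) * (B (cardFactors (n + a)) - mB B (K * N)) *
          Pool.Agent.Helper602.MK.ee (α * n) +
        mB B (K * N) * ∑ n ∈ Icc 1 (K * N), 1 * (A (cardFactors (n + c)) - mB A (K * N)) *
          Pool.Agent.Helper602.MK.ee (α * n) +
        ∑ n ∈ Icc 1 (K * N), (mB B (K * N) * (mB A (K * N) - mB A N) + mB A N * (mB B (K * N) - mB B N)) * ee ((n : ℝ) * α) := by
      rw [mul_sum, ← sum_add_distrib, ← sum_add_distrib]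
      apply sum_congr rfl
      intro n _
      rw [ee_same, mul_comm α (n : ℝ)]
      ring
    rw [e1]
    refine (norm_add_le _ _).trans (add_le_add ((norm_add_le _ _).trans (add_le_add g1 ?_)) ?_)
    · rw [norm_mul]
      calc ‖mB B (K * N)‖ * _ ≤ 1 * _ := mul_le_mul_of_nonneg_right (hBm _) (norm_nonneg _)
        _ = _ := one_mul _
        _ ≤ _ := g2
    · refine (norm_sum_le _ _).trans ?_
      have e2 : ∀ n ∈ Icc 1 (K * N), ‖(mB B (K * N) * (mB A (K * N) - mB A N) + mB A N * (mB B (K * N) - mB B N)) * ee ((n : ℝ) * α)‖ ≤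
          ‖mB A (K * N) - mB A N‖ + ‖mB B (K * N) - mB B N‖ := by
        intro n _
        rw [norm_mul, norm_ee, mul_one]
        refine (norm_add_le _ _).trans (add_le_add ?_ ?_)
        · rw [norm_mul]
          calc _ ≤ 1 * ‖mB A (K * N) - mB A N‖ := mul_le_mul_of_nonneg_right (hBm _) (norm_nonneg _)
            _ = _ := one_mul _
        · rw [norm_mul]
          calc _ ≤ 1 * ‖mB B (K * N) - mB B N‖ := mul_le_mul_of_nonneg_right (hAm _) (norm_nonneg _)
            _ = _ := one_mul _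
      refine (sum_le_sum e2).trans (le_of_eq ?_)
      rw [sum_const, Nat.card_Icc, nsmul_eq_mul, Nat.add_sub_cancel]
  · have h1 : ∀ N ∈ Icc 1 X, (U1 (K * N) + U2 (K * N) + (K * N : ℕ) * (‖mB A (K * N) - mB A N‖ + ‖mB B (K * N) - mB B N‖)) / (N : ℝ) ^ 2 ≤
        K ^ 2 * (U1 (K * N) / ((K * N : ℕ) : ℝ) ^ 2) + K ^ 2 * (U2 (K * N) / ((K * N : ℕ) : ℝ) ^ 2) +
          (ε / 8 * (1 / N) + if N < N₀ then (4 : ℝ) * K else 0) := by
      intro N hN
      have hN1 := (mem_Icc.1 hN).1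
      have hNr : (1 : ℝ) ≤ N := by exact_mod_cast hN1
      have hN0 : (0 : ℝ) < N := by linarith
      have e1 : (U1 (K * N) + U2 (K * N) + (K * N : ℕ) * (‖mB A (K * N) - mB A N‖ + ‖mB B (K * N) - mB B N‖)) / (N : ℝ) ^ 2 =
          K ^ 2 * (U1 (K * N) / ((K * N : ℕ) : ℝ) ^ 2) + K ^ 2 * (U2 (K * N) / ((K * N : ℕ) : ℝ) ^ 2) +
          (‖mB A (K * N) - mB A N‖ + ‖mB B (K * N) - mB B N‖) * (K / N) := by
        push_cast
        field_simp
      rw [e1]
      apply add_le_add le_rfl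
      split_ifs with h
      · have e2 : ‖mB A (K * N) - mB A N‖ + ‖mB B (K * N) - mB B N‖ ≤ 4 := by
          have f1 := norm_sub_le (mB B (K * N)) (mB B N)
          have f2 := norm_sub_le (mB A (K * N)) (mB A N)
          have f3 := hAm N
          have f4 := hAm (K * N)
          have f5 := hBm N
          have f6 := hBm (K * N)
          linarith
        have e3 : (K : ℝ) / N ≤ K := div_le_self hK0.le hNr
        have e4 : (‖mB A (K * N) - mB A N‖ + ‖mB B (K * N) - mB B N‖) * (K / N) ≤ 4 * K :=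
          mul_le_mul e2 e3 (by positivity) (by norm_num)
        have : 0 ≤ ε / 8 * (1 / (N : ℝ)) := by positivity
        linarith
      · have hKN : N₀ ≤ K * N := (by omega : N₀ ≤ N).trans (Nat.le_mul_of_pos_left _ (by omega))
        have hcn : 1 / (K : ℝ) * ((K * N : ℕ) : ℝ) ≤ N := by
          push_cast
          rw [← mul_assoc, one_div, inv_mul_cancel₀ hK0.ne', one_mul]
        have f1 := hN₀ A hA (K * N) N hKN hcn (Nat.le_mul_of_pos_left _ (by omega))
        have f2 := hN₀ B hB (K * N) N hKN hcn (Nat.le_mul_of_pos_left _ (by omega))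
        have e3 : (‖mB A (K * N) - mB A N‖ + ‖mB B (K * N) - mB B N‖) * (K / N) ≤ (ε / (16 * K) + ε / (16 * K)) * (K / N) :=
          mul_le_mul_of_nonneg_right (add_le_add f1 f2) (by positivity)
        have e4 : (ε / (16 * K) + ε / (16 * K)) * ((K : ℝ) / N) = ε / 8 * (1 / N) := by
          field_simp
          norm_num
        rw [e4] at e3
        linarith
    refine (sum_le_sum h1).trans ?_
    rw [sum_add_distrib, sum_add_distrib, sum_add_distrib, ← mul_sum, ← mul_sum, ← mul_sum]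
    have s1 := (sum_multiples U1 hU10 K X hK).trans hU1s
    have s2 := (sum_multiples U2 hU20 K X hK).trans hU2s
    have s3 : ∑ N ∈ Icc 1 X, 1 / (N : ℝ) ≤ 2 * Real.log X := by
      have h := harmonic_le_one_add_log X
      have e : ((harmonic X : ℚ) : ℝ) = ∑ N ∈ Icc 1 X, 1 / (N : ℝ) := by
        rw [harmonic_eq_sum_Icc]
        push_cast
        simp only [one_div]
      rw [e] at h
      linarith
    have s4 : ∑ N ∈ Icc 1 X, (if N < N₀ then (4 : ℝ) * K else 0) ≤ 4 * K * N₀ := by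
      rw [← sum_filter, sum_const, nsmul_eq_mul, mul_comm]
      apply mul_le_mul_of_nonneg_left _ (by positivity)
      have : ((Icc 1 X).filter (fun N => N < N₀)).card ≤ N₀ := by
        calc _ ≤ (range N₀).card := card_le_card (by intro N hN; rw [mem_filter] at hN; exact mem_range.2 hN.2)
          _ = N₀ := card_range _
      exact_mod_cast this
    have t1 : (K : ℝ) ^ 2 * (ε / (16 * K ^ 2) * Real.log ((K * X : ℕ) : ℝ)) ≤ ε / 8 * Real.log X := by
      have : (K : ℝ) ^ 2 * (ε / (16 * K ^ 2) * Real.log ((K * X : ℕ) : ℝ)) = ε / 16 * Real.log ((K * X : ℕ) : ℝ) := by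
        field_simp
      rw [this]
      have := mul_le_mul_of_nonneg_left hlX (by positivity : 0 ≤ ε / 16)
      linarith
    have t2 : (4 : ℝ) * K * N₀ ≤ ε / 4 * Real.log X := by
      have h3 : 16 * (K : ℝ) * N₀ / ε ≤ Real.log X := by linarith
      rw [div_le_iff₀ hε] at h3
      linarith
    have u1 := (mul_le_mul_of_nonneg_left s1 (by positivity : (0 : ℝ) ≤ (K : ℝ) ^ 2)).trans t1
    have u2 := (mul_le_mul_of_nonneg_left s2 (by positivity : (0 : ℝ) ≤ (K : ℝ) ^ 2)).trans t1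
    have u3 := mul_le_mul_of_nonneg_left s3 (by positivity : (0 : ℝ) ≤ ε / 8)
    have u4 : 0 ≤ ε * Real.log X := by positivity
    linarith

end Pool.Agent.H68.OP
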