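import Pool.Agent.H68.OP.StepTV

set_option autoImplicit false

/-! All forms. -/

namespace Pool.Agent.H68.OP

open Finset
open ArithmeticFunction (cardFactors)

variable {V : Type} [Fintype V] [DecidableEq V]

/-- The variable `v` runs over all the integers of `[N]`. -/
def Full (N : ℕ) (X : V → ℕ) (s : V → ℕ → ℕ) (v : V) : Prop := X v = N ∧ ∀ m, s v m = m

/-- Every `e r` contains two variables, one of them full, which are not both contained in any of the `E q` and in any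
of the `e r'` with `r' > r`. -/
def Private {R m : ℕ} (N : ℕ) (X : V → ℕ) (s : V → ℕ → ℕ) (E : Fin R → Finset V) (e : Fin m → Finset V) : Prop :=
  ∀ r : Fin m, ∃ i j : V, i ≠ j ∧ Full N X s i ∧ i ∈ e r ∧ j ∈ e r ∧ (∀ q, ¬ (i ∈ E q ∧ j ∈ E q)) ∧
    ∀ r', r < r' → ¬ (i ∈ e r' ∧ j ∈ e r')

lemma om_append {R m : ℕ} (s : V → ℕ → ℕ) (E : Fin R → Finset V) (T₀ : Fin R → ℕ) (e : Fin m → Finset V) (T : Fin m → ℕ)
    (x : V → ℕ) : om s (Fin.append E e) (Fin.append T₀ T) x = Fin.append (om s E T₀ x) (om s e T x) := by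
  funext q
  refine Fin.addCases (fun a => ?_) (fun a => ?_) q
  · unfold om
    rw [Fin.append_left, Fin.append_left, Fin.append_left]
  · unfold om
    rw [Fin.append_right, Fin.append_right, Fin.append_right]

lemma private_tail {R m : ℕ} {N : ℕ} {X : V → ℕ} {s : V → ℕ → ℕ} {E : Fin R → Finset V} {e : Fin (m + 1) → Finset V}
    (h : Private N X s E e) : Private N X s E (fun r => e r.succ) := by
  intro r
  obtain ⟨i, j, h1, h2, h3, h4, h5, h6⟩ := h r.succ
  exact ⟨i, j, h1, h2, h3, h4, h5, fun r' hr' => h6 r'.succ (Fin.succ_lt_succ_iff.2 hr')⟩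

lemma private_head {R m : ℕ} {N : ℕ} {X : V → ℕ} {s : V → ℕ → ℕ} {E : Fin R → Finset V} {e : Fin (m + 1) → Finset V}
    (h : Private N X s E e) : ∃ i j : V, i ≠ j ∧ Full N X s i ∧ i ∈ e 0 ∧ j ∈ e 0 ∧
      ∀ q, ¬ (i ∈ Fin.append E (fun r => e r.succ) q ∧ j ∈ Fin.append E (fun r => e r.succ) q) := by
  obtain ⟨i, j, h1, h2, h3, h4, h5, h6⟩ := h 0
  refine ⟨i, j, h1, h2, h3, h4, fun q => ?_⟩
  refine Fin.addCases (fun a => ?_) (fun a => ?_) q
  · rw [Fin.append_left]; exact h5 a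
  · rw [Fin.append_right]; exact h6 a.succ (Fin.succ_pos a)

lemma append_le {R m : ℕ} {T₀ : Fin R → ℕ} {T : Fin m → ℕ} {K : ℕ} (h0 : ∀ r, T₀ r ≤ K) (h1 : ∀ r, T r ≤ K) (q : Fin (R + m)) :
    Fin.append T₀ T q ≤ K := by
  refine Fin.addCases (fun a => ?_) (fun a => ?_) q
  · rw [Fin.append_left]; exact h0 a
  · rw [Fin.append_right]; exact h1 a

theorem tv (R P B : ℕ) (C₀ : ℝ) (m : ℕ) : ∃ κ : ℝ, 0 < κ ∧ ∃ C : ℝ, 0 < C ∧ ∃ N₀ : ℕ, ∀ N : ℕ, N₀ ≤ N →
    ∀ (X : V → ℕ) (s : V → ℕ → ℕ), (∀ v, Spread N B P C₀ (X v) (s v)) → ∀ f : V → ℕ → ℕ,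
    (∀ v, Full N X s v → ∀ n, (f v n : ℝ) ≤ Real.log N ^ κ) →
    ∀ (E : Fin R → Finset V) (T₀ : Fin R → ℕ), (∀ r, T₀ r ≤ B * N) →
    ∀ (e : Fin m → Finset V) (T : Fin m → ℕ), (∀ r, T r ≤ B * N) → Private N X s E e →
    ∀ a : (V → ℕ) → (Fin R → ℕ) → (Fin m → ℕ) → ℂ, (∀ c u v, ‖a c u v‖ ≤ 1) →
    ‖∑ x ∈ Box X, a (lab f x) (om s E T₀ x) (om s e T x) -
        ∑ x ∈ Box X, mean N m (a (lab f x) (om s E T₀ x))‖ ≤ C * rate N * (Box X).card := by
  obtain ⟨N3, hN3, hr⟩ := Pool.Agent.TH445.OI.rr_facts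
  induction m with
  | zero =>
    refine ⟨1, one_pos, 1, one_pos, N3, fun N hN X s _ f _ E T₀ _ e T _ _ a _ => ?_⟩
    obtain ⟨hrr, -, -, -⟩ := hr N (by omega)
    have hr0 : 0 < rate N := hrr
    have e1 : ∀ x, mean N 0 (a (lab f x) (om s E T₀ x)) = a (lab f x) (om s E T₀ x) (om s e T x) :=
      fun x => mean_zero N _ _
    simp only [e1, sub_self, norm_zero]
    positivity
  | succ m ih =>
    obtain ⟨κ1, hκ1, C1, hC1, N1, h1⟩ := ih
    obtain ⟨κ2, hκ2, C2, hC2, N2, h2⟩ := step_tv (V := V) (R + m) P B C₀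
    refine ⟨min κ1 κ2, lt_min hκ1 hκ2, C1 + C2, by positivity, max (max N1 N2) N3, ?_⟩
    intro N hN X s hs f hf E T₀ hT₀ e T hT hP a ha
    obtain ⟨hrr, -, -, hL1⟩ := hr N (by omega)
    obtain ⟨i, j, hij, hfull, hi, hj, hp⟩ := private_head hP
    have hf1 : ∀ v, Full N X s v → ∀ n, (f v n : ℝ) ≤ Real.log N ^ κ1 := fun v hv n =>
      (hf v hv n).trans (Real.rpow_le_rpow_of_exponent_le hL1 (min_le_left _ _))
    have hf2 : ∀ v, Full N X s v → ∀ n, (f v n : ℝ) ≤ Real.log N ^ κ2 := fun v hv n =>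
      (hf v hv n).trans (Real.rpow_le_rpow_of_exponent_le hL1 (min_le_right _ _))
    have g2 := h2 N (by omega) X s hs f (Fin.append E (fun r => e r.succ)) (Fin.append T₀ (fun r => T r.succ))
      (append_le hT₀ (fun r => hT r.succ)) (e 0) (T 0) (hT 0) i j hij hi hj hp hfull.1 hfull.2 (hf2 i hfull)
      (fun c u v => a c (fun q => u (Fin.castAdd m q)) (Fin.cons v (fun q => u (Fin.natAdd R q)) : Fin (m + 1) → ℕ))
      (fun c u v => ha _ _ _)
    have g1 := h1 N (by omega) X s hs f hf1 E T₀ hT₀ (fun r => e r.succ) (fun r => T r.succ) (fun r => hT r.succ)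
      (private_tail hP) (fun c u v => mean1 N (fun r => a c u (Fin.cons r v : Fin (m + 1) → ℕ)))
      (fun c u v => mean1_le N _ (fun r => ha _ _ _))
    simp only [om_append, Fin.append_left, Fin.append_right] at g2
    have e1 : ∀ x, (Fin.cons (cardFactors (form s (e 0) (T 0) x)) (fun q => om s (fun r => e r.succ) (fun r => T r.succ) x q) : Fin (m + 1) → ℕ) =
        om s e T x := by
      intro x
      funext q
      refine Fin.cases ?_ (fun q' => ?_) q
      · rfl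
      · rfl
    have e2 : ∀ x, mean N m (fun v => mean1 N (fun r => a (lab f x) (om s E T₀ x) (Fin.cons r v : Fin (m + 1) → ℕ))) =
        mean N (m + 1) (a (lab f x) (om s E T₀ x)) := by
      intro x
      rw [mean_succ]
      unfold mean1 mean
      rw [← sum_div, div_div, ← sum_div, div_div, sum_comm, mul_comm]
    simp only [e1] at g2
    simp only [e2] at g1
    have e3 : ∀ x, (fun q => om s E T₀ x q) = om s E T₀ x := fun x => rfl
    simp only [e3] at g2
    calc ‖∑ x ∈ Box X, a (lab f x) (om s E T₀ x) (om s e T x) - ∑ x ∈ Box X, mean N (m + 1) (a (lab f x) (om s E T₀ x))‖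
        ≤ ‖∑ x ∈ Box X, a (lab f x) (om s E T₀ x) (om s e T x) -
            ∑ x ∈ Box X, mean1 N (fun r => a (lab f x) (om s E T₀ x) (Fin.cons r (om s (fun r => e r.succ) (fun r => T r.succ) x) : Fin (m + 1) → ℕ))‖ +
          ‖∑ x ∈ Box X, mean1 N (fun r => a (lab f x) (om s E T₀ x) (Fin.cons r (om s (fun r => e r.succ) (fun r => T r.succ) x) : Fin (m + 1) → ℕ)) -
            ∑ x ∈ Box X, mean N (m + 1) (a (lab f x) (om s E T₀ x))‖ := norm_sub_le_norm_sub_add_norm_sub _ _ _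
      _ ≤ C2 * rate N * (Box X).card + C1 * rate N * (Box X).card := add_le_add g2 g1
      _ = _ := by ring

lemma num1 (m : ℕ) (C1 C2 Cp L q Sw a c S1 : ℝ) (hC1 : 0 < C1) (hC2 : 0 < C2) (hL : 0 < L) (hq : 1 ≤ q)
    (hLq : L / q ≤ 1) (hS : 0 ≤ Sw) (ha : 0 ≤ a) (hc : 0 ≤ c)
    (h : S1 ≤ C1 * (L / q ^ (m + 1)) * Sw + C1 * a * c + (Cp / q) ^ m * Sw) :
    C2 * (L / q ^ 2) * S1 ≤ (C2 * C1 + C2 * Cp ^ m) * (L / q ^ (m + 2)) * Sw + C2 * C1 * a * c := by
  have hq0 : 0 < q := by linarith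
  have t0 : 0 ≤ C2 * (L / q ^ 2) := by positivity
  have t1 := mul_le_mul_of_nonneg_left h t0
  refine t1.trans ?_
  have t2 : C2 * (L / q ^ 2) * (C1 * (L / q ^ (m + 1)) * Sw + C1 * a * c + (Cp / q) ^ m * Sw) =
      C2 * C1 * (L / q ^ (m + 2)) * Sw * (L / q) + C2 * C1 * a * c * (L / q * (1 / q)) + C2 * Cp ^ m * (L / q ^ (m + 2)) * Sw := by
    have e1 : q ^ (m + 1) = q ^ m * q := pow_succ q m
    have e2 : q ^ (m + 2) = q ^ m * q ^ 2 := pow_add q m 2
    rw [div_pow, e1, e2]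
    field_simp
  rw [t2]
  have t3 : C2 * C1 * (L / q ^ (m + 2)) * Sw * (L / q) ≤ C2 * C1 * (L / q ^ (m + 2)) * Sw * 1 :=
    mul_le_mul_of_nonneg_left hLq (by positivity)
  have t5 : 1 / q ≤ 1 := by rw [div_le_one hq0]; exact hq
  have t4 : C2 * C1 * a * c * (L / q * (1 / q)) ≤ C2 * C1 * a * c * 1 := by
    apply mul_le_mul_of_nonneg_left _ (by positivity)
    calc L / q * (1 / q) ≤ 1 * 1 := mul_le_mul hLq t5 (by positivity) zero_le_one
      _ = 1 := one_mul 1
  linarith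

lemma num2 (m : ℕ) (C1 Cp L q Sw a c S1 : ℝ) (hC1 : 0 < C1) (hCp : 0 < Cp) (hL : 0 < L) (hq : 1 ≤ q)
    (ha : 0 ≤ a) (hc : 0 ≤ c) (h : S1 ≤ Sw) :
    Cp / q * (C1 * (L / q ^ (m + 1)) * S1 + C1 * a * c) ≤ C1 * Cp * (L / q ^ (m + 2)) * Sw + C1 * Cp * a * c := by
  have hq0 : 0 < q := by linarith
  have t5 : 1 / q ≤ 1 := by rw [div_le_one hq0]; exact hq
  have h1 : C1 * (L / q ^ (m + 1)) * S1 ≤ C1 * (L / q ^ (m + 1)) * Sw := mul_le_mul_of_nonneg_left h (by positivity)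
  have h2 : Cp / q * (C1 * (L / q ^ (m + 1)) * S1 + C1 * a * c) ≤ Cp / q * (C1 * (L / q ^ (m + 1)) * Sw + C1 * a * c) :=
    mul_le_mul_of_nonneg_left (by linarith) (by positivity)
  refine h2.trans ?_
  have e1 : q ^ (m + 2) = q ^ (m + 1) * q := pow_succ q (m + 1)
  have e3 : Cp / q * (C1 * (L / q ^ (m + 1)) * Sw + C1 * a * c) = C1 * Cp * (L / q ^ (m + 2)) * Sw + C1 * Cp * a * c * (1 / q) := by
    rw [e1]; field_simp
  rw [e3]
  have := mul_le_mul_of_nonneg_left t5 (by positivity : 0 ≤ C1 * Cp * a * c)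
  linarith

theorem loc (R P B A : ℕ) (C₀ : ℝ) (m : ℕ) : ∃ κ : ℝ, 0 < κ ∧ ∃ C : ℝ, 0 < C ∧ ∃ N₀ : ℕ, ∀ N : ℕ, N₀ ≤ N →
    ∀ (X : V → ℕ) (s : V → ℕ → ℕ), (∀ v, Spread N B P C₀ (X v) (s v)) → ∀ f : V → ℕ → ℕ,
    (∀ v, Full N X s v → ∀ n, (f v n : ℝ) ≤ Real.log N ^ κ) →
    ∀ (E : Fin R → Finset V) (T₀ : Fin R → ℕ), (∀ r, T₀ r ≤ B * N) →
    ∀ (e : Fin m → Finset V) (T : Fin m → ℕ), (∀ r, T r ≤ B * N) → Private N X s E e →
    ∀ w : (V → ℕ) → (Fin R → ℕ) → ℝ, (∀ c u, 0 ≤ w c u ∧ w c u ≤ 1) → ∀ G : (V → ℕ) → (Fin R → ℕ) → Fin m → ℕ,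
    |∑ x ∈ Box X, w (lab f x) (om s E T₀ x) *
        ((if om s e T x = G (lab f x) (om s E T₀ x) then (1 : ℝ) else 0) -
          ∏ r, dens N (G (lab f x) (om s E T₀ x) r))| ≤
      C * (Real.log (ll N) / √(ll N) ^ (m + 1)) * ∑ x ∈ Box X, w (lab f x) (om s E T₀ x) + C / ll N ^ A * (Box X).card := by
  obtain ⟨N3, hN3, hr⟩ := Pool.Agent.TH445.OI.rr_facts
  obtain ⟨N4, hN4, hr2⟩ := Pool.Agent.TH445.OI.r2_facts
  induction m with
  | zero =>
    refine ⟨1, one_pos, 1, one_pos, max N3 N4, fun N hN X s _ f _ E T₀ _ e T _ _ w hw G => ?_⟩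
    obtain ⟨-, -, v16, -⟩ := hr N (by omega)
    obtain ⟨-, -, u1⟩ := hr2 N (by omega)
    have ell : Real.log (Real.log (N : ℝ)) = ll N := rfl
    rw [ell] at v16 u1
    have hv0 : 0 < ll N := by linarith
    have e1 : ∀ x, om s e T x = G (lab f x) (om s E T₀ x) := fun x => by funext r; exact r.elim0
    have e2 : ∀ x, ((if om s e T x = G (lab f x) (om s E T₀ x) then (1 : ℝ) else 0) - ∏ r, dens N (G (lab f x) (om s E T₀ x) r)) = 0 := by
      intro x
      rw [if_pos (e1 x)]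
      simp
    simp only [e2, mul_zero, sum_const_zero, abs_zero]
    have h1 : 0 ≤ ∑ x ∈ Box X, w (lab f x) (om s E T₀ x) := sum_nonneg fun _ _ => (hw _ _).1
    positivity
  | succ m ih =>
    obtain ⟨κ1, hκ1, C1, hC1, N1, h1⟩ := ih
    obtain ⟨κ2, hκ2, C2, hC2, N2, h2⟩ := step_loc (V := V) (R + m) P B A C₀
    obtain ⟨Cp, hCp, N5, hN5, hpl⟩ := Pool.Agent.TH445.OI.pl_bounds
    refine ⟨min κ1 κ2, lt_min hκ1 hκ2, C2 * C1 + C2 * Cp ^ m + C1 * Cp + C2, by positivity, max (max N1 N2) (max (max N3 N4) N5), ?_⟩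
    intro N hN X s hs f hf E T₀ hT₀ e T hT hP w hw G
    obtain ⟨-, -, v16, hL1⟩ := hr N (by omega)
    obtain ⟨-, -, u1⟩ := hr2 N (by omega)
    obtain ⟨p1, -, p3⟩ := hpl N (by omega)
    have ell : Real.log (Real.log (N : ℝ)) = ll N := rfl
    rw [ell] at v16 u1 p1 p3
    have hv0 : 0 < ll N := by linarith
    have hu0 : 0 < Real.log (ll N) := by linarith
    have hsv0 : 0 < √(ll N) := Real.sqrt_pos.2 hv0
    have hs1 : 1 ≤ √(ll N) := Real.le_sqrt_of_sq_le (by linarith)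
    have p1' : ∀ l, dens N l ≤ Cp / √(ll N) := by
      intro l
      have e1 : Pool.Agent.TH445.OI.pl N l = dens N l := by
        rw [← Pool.Agent.Results.MP_e0aac0_nt.LocalLaw.dens_eq]; rfl
      have := p1 l
      rw [e1] at this
      rw [div_eq_mul_one_div]
      exact this
    have p3' : Real.log (ll N) / √(ll N) ≤ 1 := by rw [div_eq_mul_one_div]; exact p3
    obtain ⟨i, j, hij, hfull, hi, hj, hp⟩ := private_head hP
    have hf1 : ∀ v, Full N X s v → ∀ n, (f v n : ℝ) ≤ Real.log N ^ κ1 := fun v hv n =>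
      (hf v hv n).trans (Real.rpow_le_rpow_of_exponent_le hL1 (min_le_left _ _))
    have hf2 : ∀ v, Full N X s v → ∀ n, (f v n : ℝ) ≤ Real.log N ^ κ2 := fun v hv n =>
      (hf v hv n).trans (Real.rpow_le_rpow_of_exponent_le hL1 (min_le_right _ _))
    set e' : Fin m → Finset V := fun r => e r.succ with he'
    set T' : Fin m → ℕ := fun r => T r.succ with hT'
    have g2 := h2 N (by omega) X s hs f (Fin.append E e') (Fin.append T₀ T')
      (append_le hT₀ (fun r => hT r.succ)) (e 0) (T 0) (hT 0) i j hij hi hj hp hfull.1 hfull.2 (hf2 i hfull)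
      (fun c u => w c (fun q => u (Fin.castAdd m q)) *
        (if (fun q => u (Fin.natAdd R q)) = (fun r : Fin m => G c (fun q => u (Fin.castAdd m q)) r.succ) then (1 : ℝ) else 0))
      (fun c u => by
        obtain ⟨a1, a2⟩ := hw c (fun q => u (Fin.castAdd m q))
        split_ifs
        · rw [mul_one]; exact ⟨a1, a2⟩
        · rw [mul_zero]; exact ⟨le_rfl, zero_le_one⟩)
      (fun c u => G c (fun q => u (Fin.castAdd m q)) 0)
    simp only [om_append, Fin.append_left, Fin.append_right] at g2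
    have e3 : ∀ x, (fun q => om s E T₀ x q) = om s E T₀ x := fun x => rfl
    have e4 : ∀ x, (fun q => om s e' T' x q) = om s e' T' x := fun x => rfl
    simp only [e3, e4] at g2
    have g1 := h1 N (by omega) X s hs f hf1 E T₀ hT₀ e' T' (fun r => hT r.succ)
      (private_tail hP) w hw (fun c u r => G c u r.succ)
    have g1' := h1 N (by omega) X s hs f hf1 E T₀ hT₀ e' T' (fun r => hT r.succ)
      (private_tail hP) (fun c u => w c u * (dens N (G c u 0) * (√(ll N) / Cp)))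
      (fun c u => by
        obtain ⟨a1, a2⟩ := hw c u
        have a3 := dens_nonneg N (G c u 0)
        have a4 := p1' (G c u 0)
        have a5 : dens N (G c u 0) * (√(ll N) / Cp) ≤ 1 := by
          calc _ ≤ Cp / √(ll N) * (√(ll N) / Cp) := by gcongr
            _ = 1 := by field_simp
        have a6 : 0 ≤ dens N (G c u 0) * (√(ll N) / Cp) := by positivity
        exact ⟨mul_nonneg a1 a6, mul_le_one₀ a2 a6 a5⟩) (fun c u r => G c u r.succ)
    -- abbreviations
    set L : ℝ := Real.log (ll N) with hL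
    set q : ℝ := √(ll N) with hq
    set Sw : ℝ := ∑ x ∈ Box X, w (lab f x) (om s E T₀ x) with hSw
    set c : ℝ := ((Box X).card : ℝ) with hc
    set a : ℝ := 1 / ll N ^ A with ha
    have ha0 : 0 ≤ a := by rw [ha]; positivity
    have hc0 : 0 ≤ c := Nat.cast_nonneg _
    have hSw0 : 0 ≤ Sw := sum_nonneg fun _ _ => (hw _ _).1
    have hdiv : ∀ D : ℝ, D / ll N ^ A = D * a := fun D => by rw [ha]; ring
    simp only [hdiv] at g1 g1' g2 ⊢
    -- the sum of the weights of the tuples with the prescribed values at the other forms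
    have hI : ∀ x, (if om s e' T' x = (fun r : Fin m => G (lab f x) (om s E T₀ x) r.succ) then (1 : ℝ) else 0) ≤
        ((if om s e' T' x = (fun r : Fin m => G (lab f x) (om s E T₀ x) r.succ) then (1 : ℝ) else 0) -
          ∏ r : Fin m, dens N (G (lab f x) (om s E T₀ x) r.succ)) + (Cp / q) ^ m := by
      intro x
      have : ∏ r : Fin m, dens N (G (lab f x) (om s E T₀ x) r.succ) ≤ (Cp / q) ^ m := by
        calc _ ≤ ∏ _r : Fin m, (Cp / q) := prod_le_prod (fun r _ => dens_nonneg _ _) (fun r _ => p1' _)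
          _ = _ := by rw [prod_const, card_univ, Fintype.card_fin]
      linarith
    have hW1 : ∑ x ∈ Box X, w (lab f x) (om s E T₀ x) *
        (if om s e' T' x = (fun r : Fin m => G (lab f x) (om s E T₀ x) r.succ) then (1 : ℝ) else 0) ≤
        C1 * (L / q ^ (m + 1)) * Sw + C1 * a * c + (Cp / q) ^ m * Sw := by
      calc _ ≤ ∑ x ∈ Box X, w (lab f x) (om s E T₀ x) *
            (((if om s e' T' x = (fun r : Fin m => G (lab f x) (om s E T₀ x) r.succ) then (1 : ℝ) else 0) -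
              ∏ r : Fin m, dens N (G (lab f x) (om s E T₀ x) r.succ)) + (Cp / q) ^ m) :=
            sum_le_sum fun x _ => mul_le_mul_of_nonneg_left (hI x) (hw _ _).1
        _ = ∑ x ∈ Box X, w (lab f x) (om s E T₀ x) *
            ((if om s e' T' x = (fun r : Fin m => G (lab f x) (om s E T₀ x) r.succ) then (1 : ℝ) else 0) -
              ∏ r : Fin m, dens N (G (lab f x) (om s E T₀ x) r.succ)) + (Cp / q) ^ m * Sw := by
            rw [hSw, mul_sum, ← sum_add_distrib]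
            apply sum_congr rfl
            intro x _
            ring
        _ ≤ _ := by
            have := (le_abs_self _).trans g1
            linarith
    -- the two parts
    have hsplit : ∑ x ∈ Box X, w (lab f x) (om s E T₀ x) *
        ((if om s e T x = G (lab f x) (om s E T₀ x) then (1 : ℝ) else 0) -
          ∏ r, dens N (G (lab f x) (om s E T₀ x) r)) =
        ∑ x ∈ Box X, w (lab f x) (om s E T₀ x) *
          (if om s e' T' x = (fun r : Fin m => G (lab f x) (om s E T₀ x) r.succ) then (1 : ℝ) else 0) *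
          ((if cardFactors (form s (e 0) (T 0) x) = G (lab f x) (om s E T₀ x) 0 then (1 : ℝ) else 0) -
            dens N (G (lab f x) (om s E T₀ x) 0)) +
        Cp / q * ∑ x ∈ Box X, w (lab f x) (om s E T₀ x) * (dens N (G (lab f x) (om s E T₀ x) 0) * (q / Cp)) *
          ((if om s e' T' x = (fun r : Fin m => G (lab f x) (om s E T₀ x) r.succ) then (1 : ℝ) else 0) -
            ∏ r : Fin m, dens N (G (lab f x) (om s E T₀ x) r.succ)) := by
      rw [mul_sum, ← sum_add_distrib]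
      apply sum_congr rfl
      intro x _
      rw [Fin.prod_univ_succ]
      have b1 : (om s e T x = G (lab f x) (om s E T₀ x)) ↔ (cardFactors (form s (e 0) (T 0) x) = G (lab f x) (om s E T₀ x) 0 ∧
          om s e' T' x = (fun r : Fin m => G (lab f x) (om s E T₀ x) r.succ)) := by
        constructor
        · intro h
          exact ⟨congrFun h 0, by funext r; exact congrFun h r.succ⟩
        · rintro ⟨h3, h4⟩
          funext r
          refine Fin.cases ?_ (fun r' => ?_) r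
          · exact h3
          · exact congrFun h4 r'
      have b2 : Cp / q * (q / Cp) = 1 := by field_simp
      have b3 : ∀ y z t : ℝ, Cp / q * (y * (z * (q / Cp)) * t) = (Cp / q * (q / Cp)) * (y * z * t) := fun y z t => by ring
      rw [b3, b2, one_mul]
      by_cases h3 : cardFactors (form s (e 0) (T 0) x) = G (lab f x) (om s E T₀ x) 0
      · by_cases h4 : om s e' T' x = (fun r : Fin m => G (lab f x) (om s E T₀ x) r.succ)
        · rw [if_pos (b1.2 ⟨h3, h4⟩), if_pos h3, if_pos h4]; ring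
        · rw [if_neg (fun h => h4 (b1.1 h).2), if_neg h4]; ring
      · rw [if_neg (fun h => h3 (b1.1 h).1), if_neg h3]; ring
    rw [hsplit]
    refine (abs_add_le _ _).trans ?_
    rw [abs_mul, abs_of_pos (div_pos hCp hsv0)]
    have hSw' : ∑ x ∈ Box X, w (lab f x) (om s E T₀ x) * (dens N (G (lab f x) (om s E T₀ x) 0) * (q / Cp)) ≤ Sw := by
      apply sum_le_sum
      intro x _
      have a3 := dens_nonneg N (G (lab f x) (om s E T₀ x) 0)
      have a4 := p1' (G (lab f x) (om s E T₀ x) 0)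
      have a5 : dens N (G (lab f x) (om s E T₀ x) 0) * (q / Cp) ≤ 1 := by
        calc _ ≤ Cp / q * (q / Cp) := by gcongr
          _ = 1 := by field_simp
      exact mul_le_of_le_one_right (hw _ _).1 a5
    have hA1 := num1 m C1 C2 Cp L q Sw a c _ hC1 hC2 hu0 hs1 p3' hSw0 ha0 hc0 hW1
    have hB1 := num2 m C1 Cp L q Sw a c _ hC1 hCp hu0 hs1 ha0 hc0 hSw'
    have hC := mul_le_mul_of_nonneg_left g1' (div_pos hCp hsv0).le
    have fin1 : (C2 * C1 + C2 * Cp ^ m + C1 * Cp + C2) * (L / q ^ (m + 1 + 1)) * Sw + (C2 * C1 + C2 * Cp ^ m + C1 * Cp + C2) * a * c =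
        ((C2 * C1 + C2 * Cp ^ m) * (L / q ^ (m + 2)) * Sw + C2 * C1 * a * c + C2 * a * c) +
        (C1 * Cp * (L / q ^ (m + 2)) * Sw + C1 * Cp * a * c) + (C2 * (L / q ^ (m + 2)) * Sw + C2 * Cp ^ m * a * c) := by ring
    have fin2 : 0 ≤ C2 * (L / q ^ (m + 2)) * Sw + C2 * Cp ^ m * a * c :=
      add_nonneg (mul_nonneg (mul_nonneg hC2.le (div_nonneg hu0.le (pow_nonneg hsv0.le _))) hSw0)
        (mul_nonneg (mul_nonneg (mul_nonneg hC2.le (pow_nonneg hCp.le _)) ha0) hc0)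
    linarith

end Pool.Agent.H68.OP
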