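import Pool.Agent.H68.OP.Base

set_option autoImplicit false

/-! One form. -/

namespace Pool.Agent.H68.OP

open Finset
open ArithmeticFunction (cardFactors)

variable {V : Type} [Fintype V] [DecidableEq V]

lemma dens_nonneg (N l : ℕ) : 0 ≤ dens N l := by unfold dens; positivity

lemma dens_le_one (N l : ℕ) : dens N l ≤ 1 := by
  unfold dens
  rcases Nat.eq_zero_or_pos N with h | h
  · subst h; simp
  · have hN : (0 : ℝ) < N := by exact_mod_cast h
    rw [one_div, inv_mul_le_iff₀ hN, mul_one]
    have h1 : ((Icc 1 N).filter (fun n => cardFactors n = l)).card ≤ N := by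
      refine (card_filter_le _ _).trans ?_
      simp
    exact_mod_cast h1

/-- the sum over `x` and the sum over the coordinates `j`, `i` -/
lemma avg2 {M : Type*} [CommRing M] (X : V → ℕ) (N : ℕ) (i j : V) (hXi : X i = N) (Φ : (V → ℕ) → M) :
    ∑ x ∈ Box X, ∑ h ∈ Icc 1 (X j), ∑ n ∈ Icc 1 N, Φ (Function.update (Function.update x j h) i n) =
      (N : M) * X j * ∑ x ∈ Box X, Φ x := by
  have h1 := avg X (fun y => ∑ n ∈ Icc 1 N, Φ (Function.update y i n)) j
  have h2 := avg X Φ i
  rw [hXi] at h2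
  rw [h1, h2]
  ring

lemma box_empty {X : V → ℕ} {j : V} (h : X j = 0) : Box X = ∅ := by
  rw [eq_empty_iff_forall_notMem]
  intro x hx
  have := mem_Box.1 hx j
  rw [h, mem_Icc] at this
  omega

theorem step_loc (R P B A : ℕ) (C₀ : ℝ) : ∃ κ : ℝ, 0 < κ ∧ ∃ C : ℝ, 0 < C ∧ ∃ N₀ : ℕ, ∀ N : ℕ, N₀ ≤ N →
    ∀ (X : V → ℕ) (s : V → ℕ → ℕ), (∀ v, Spread N B P C₀ (X v) (s v)) → ∀ f : V → ℕ → ℕ,
    ∀ (E : Fin R → Finset V) (T : Fin R → ℕ), (∀ r, T r ≤ B * N) → ∀ (e : Finset V) (T₁ : ℕ), T₁ ≤ B * N →
    ∀ i j : V, i ≠ j → i ∈ e → j ∈ e → (∀ r, ¬ (i ∈ E r ∧ j ∈ E r)) → X i = N → (∀ m, s i m = m) →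
    (∀ n, (f i n : ℝ) ≤ Real.log N ^ κ) →
    ∀ w : (V → ℕ) → (Fin R → ℕ) → ℝ, (∀ c u, 0 ≤ w c u ∧ w c u ≤ 1) → ∀ g : (V → ℕ) → (Fin R → ℕ) → ℕ,
    |∑ x ∈ Box X, w (lab f x) (om s E T x) *
        ((if cardFactors (form s e T₁ x) = g (lab f x) (om s E T x) then (1 : ℝ) else 0) -
          dens N (g (lab f x) (om s E T x)))| ≤
      C * (Real.log (ll N) / √(ll N) ^ 2) * ∑ x ∈ Box X, w (lab f x) (om s E T x) + C / ll N ^ A * (Box X).card := by
  obtain ⟨κ, hκ, C, hC, N1, h⟩ := Pool.Agent.Results.MP_e0aac0_nt.LocalLaw.main R 1 P (B * (Fintype.card V + 2)) A C₀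
  obtain ⟨N2, h2⟩ := log_small κ hκ A
  obtain ⟨N3, hN3, hr⟩ := Pool.Agent.TH445.OI.rr_facts
  obtain ⟨N4, hN4, hr2⟩ := Pool.Agent.TH445.OI.r2_facts
  refine ⟨κ, hκ, C + 1, by positivity, max (max N1 N2) (max N3 N4), ?_⟩
  intro N hN X s hs f E T hT e T₁ hT₁ i j hij hi hj hp hXi hsi hf w hw g
  have hsm := h2 N (by omega)
  obtain ⟨-, -, v16, hL1⟩ := hr N (by omega)
  obtain ⟨-, -, u1⟩ := hr2 N (by omega)
  have ell : Real.log (Real.log (N : ℝ)) = ll N := rfl
  rw [ell] at v16 u1
  have hv0 : 0 < ll N := by linarith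
  have hsv0 : 0 < √(ll N) := Real.sqrt_pos.2 hv0
  have hNr : 0 < N := by omega
  have hN0 : (0 : ℝ) < N := by exact_mod_cast hNr
  have hrpos : 0 ≤ Real.log (ll N) / √(ll N) ^ 2 := by positivity
  set Φ : (V → ℕ) → ℝ := fun x => w (lab f x) (om s E T x) *
        ((if cardFactors (form s e T₁ x) = g (lab f x) (om s E T x) then (1 : ℝ) else 0) -
          dens N (g (lab f x) (om s E T x))) with hΦ
  set W : (V → ℕ) → ℝ := fun x => w (lab f x) (om s E T x) with hW
  have hW0 : ∀ x, 0 ≤ W x := fun x => (hw _ _).1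
  have hΦ1 : ∀ x, |Φ x| ≤ 1 := by
    intro x
    rw [hΦ]; simp only
    rw [abs_mul]
    have a1 : |w (lab f x) (om s E T x)| ≤ 1 := by
      rw [abs_of_nonneg (hw _ _).1]; exact (hw _ _).2
    have a2 : |(if cardFactors (form s e T₁ x) = g (lab f x) (om s E T x) then (1 : ℝ) else 0) -
          dens N (g (lab f x) (om s E T x))| ≤ 1 := by
      have d0 := dens_nonneg N (g (lab f x) (om s E T x))
      have d1 := dens_le_one N (g (lab f x) (om s E T x))
      rw [abs_le]
      split_ifs <;> constructor <;> linarith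
    calc _ ≤ 1 * 1 := mul_le_mul a1 a2 (abs_nonneg _) zero_le_one
      _ = 1 := one_mul 1
  rcases Nat.eq_zero_or_pos (X j) with hXj | hXj
  · rw [box_empty hXj]
    simp
  have hXj0 : (0 : ℝ) < X j := by exact_mod_cast hXj
  have hsB : ∀ v, ∀ m ∈ Icc 1 (X v), s v m ≤ B * N := fun v => (hs v).1
  have key : ∀ x ∈ Box X, |∑ h ∈ Icc 1 (X j), ∑ n ∈ Icc 1 N, Φ (Function.update (Function.update x j h) i n)| ≤
      C * (Real.log (ll N) / √(ll N) ^ 2) * ∑ h ∈ Icc 1 (X j), ∑ n ∈ Icc 1 N, W (Function.update (Function.update x j h) i n) +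
        (C / ll N ^ A + 1 / ll N ^ A) * (N * X j) := by
    intro x hx
    obtain ⟨Ex, hE1, hE2, hE3⟩ := h N (by omega) (f i) hf (tt s E T i x) (tt_le hsB hx E T hT i) (fun _ => X j)
      (fun _ m => s j m + (∑ v ∈ (e.erase i).erase j, s v (x v) + T₁)) (fun _ => by
        apply spread1
        apply spread_shift (hs j)
        have h3 := sum_le_of_box hsB hx ((e.erase i).erase j)
        have h4 : (B * (Fintype.card V + 2)) * N = Fintype.card V * (B * N) + 2 * (B * N) := by ring
        omega)
    have hlab : ∀ h n, lab f (Function.update (Function.update x j h) i n) =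
        fun v => if v = i then f i n else lab f (Function.update x j h) v := fun h n => lab_update f _ i n
    have hom : ∀ h n, om s E T (Function.update (Function.update x j h) i n) =
        fun r => if i ∈ E r then cardFactors (n + tt s E T i x r) else om s E T (Function.update x j h) r :=
      fun h n => om_update s E T x i j h n hsi hp
    have hform : ∀ h n, form s e T₁ (Function.update (Function.update x j h) i n) =
        n + (s j h + (∑ v ∈ (e.erase i).erase j, s v (x v) + T₁)) := fun h n => form_pair hij hi hj hsi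
    have good : ∀ h ∈ Icc 1 (X j), (fun _ : Fin 1 => h) ∉ Ex →
        |∑ n ∈ Icc 1 N, Φ (Function.update (Function.update x j h) i n)| ≤
          C * (Real.log (ll N) / √(ll N) ^ 2) * ∑ n ∈ Icc 1 N, W (Function.update (Function.update x j h) i n) +
            C / ll N ^ A * N := by
      intro h0 hh0 hEx
      have h5 := hE3 (fun _ => h0) (Fintype.mem_piFinset.2 fun _ => hh0) hEx
        (fun c u => w (fun v => if v = i then c else lab f (Function.update x j h0) v)
          (fun r => if i ∈ E r then u r else om s E T (Function.update x j h0) r))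
        (fun c u => hw _ _)
        (fun c u _ => g (fun v => if v = i then c else lab f (Function.update x j h0) v)
          (fun r => if i ∈ E r then u r else om s E T (Function.update x j h0) r))
      simp only [dens_eq, ll_eq] at h5
      have e1 : ∀ n, Φ (Function.update (Function.update x j h0) i n) =
          w (fun v => if v = i then f i n else lab f (Function.update x j h0) v)
            (fun r => if i ∈ E r then cardFactors (n + tt s E T i x r) else om s E T (Function.update x j h0) r) *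
          ((if ∀ _i : Fin 1, cardFactors (n + (s j h0 + (∑ v ∈ (e.erase i).erase j, s v (x v) + T₁))) =
              g (fun v => if v = i then f i n else lab f (Function.update x j h0) v)
                (fun r => if i ∈ E r then cardFactors (n + tt s E T i x r) else om s E T (Function.update x j h0) r)
              then (1 : ℝ) else 0) -
            ∏ _i : Fin 1, dens N (g (fun v => if v = i then f i n else lab f (Function.update x j h0) v)
                (fun r => if i ∈ E r then cardFactors (n + tt s E T i x r) else om s E T (Function.update x j h0) r))) := by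
        intro n
        rw [hΦ]; simp only
        rw [hlab, hom, hform]
        congr 2
        · simp
        · simp
      have e2 : ∀ n, W (Function.update (Function.update x j h0) i n) =
          w (fun v => if v = i then f i n else lab f (Function.update x j h0) v)
            (fun r => if i ∈ E r then cardFactors (n + tt s E T i x r) else om s E T (Function.update x j h0) r) := by
        intro n
        rw [hW]; simp only
        rw [hlab, hom]
      simp only [e1, e2]
      rw [abs_mul, abs_of_pos (by positivity : (0 : ℝ) < 1 / N), one_div, inv_mul_le_iff₀ hN0] at h5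
      refine h5.trans (le_of_eq ?_)
      have : (N : ℝ) * (N : ℝ)⁻¹ = 1 := mul_inv_cancel₀ hN0.ne'
      rw [mul_add, ← mul_assoc ((N : ℝ)), mul_comm (N : ℝ) (C * _), mul_assoc _ (N : ℝ), ← mul_assoc (N : ℝ), this, one_mul]
      ring
    have bad : ∀ h ∈ Icc 1 (X j), |∑ n ∈ Icc 1 N, Φ (Function.update (Function.update x j h) i n)| ≤ N := by
      intro h0 _
      refine (abs_sum_le_sum_abs _ _).trans ?_
      calc _ ≤ ∑ _n ∈ Icc 1 N, (1 : ℝ) := sum_le_sum fun n _ => hΦ1 _
        _ = N := by simp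
    have allh : ∀ h ∈ Icc 1 (X j), |∑ n ∈ Icc 1 N, Φ (Function.update (Function.update x j h) i n)| ≤
        (C * (Real.log (ll N) / √(ll N) ^ 2) * ∑ n ∈ Icc 1 N, W (Function.update (Function.update x j h) i n) +
            C / ll N ^ A * N) + (if (fun _ : Fin 1 => h) ∈ Ex then (N : ℝ) else 0) := by
      intro h0 hh0
      by_cases hEx : (fun _ : Fin 1 => h0) ∈ Ex
      · rw [if_pos hEx]
        have b1 := bad h0 hh0
        have b2 : 0 ≤ C * (Real.log (ll N) / √(ll N) ^ 2) * ∑ n ∈ Icc 1 N, W (Function.update (Function.update x j h0) i n) +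
            C / ll N ^ A * N := by
          have : 0 ≤ ∑ n ∈ Icc 1 N, W (Function.update (Function.update x j h0) i n) := sum_nonneg fun _ _ => hW0 _
          positivity
        linarith
      · rw [if_neg hEx, add_zero]
        exact good h0 hh0 hEx
    refine (abs_sum_le_sum_abs _ _).trans ((sum_le_sum allh).trans ?_)
    rw [sum_add_distrib, sum_add_distrib, ← mul_sum, sum_const, Nat.card_Icc, Nat.add_sub_cancel, nsmul_eq_mul]
    have c1 : ∑ h ∈ Icc 1 (X j), (if (fun _ : Fin 1 => h) ∈ Ex then (N : ℝ) else 0) ≤ N * ((X j) * (1 / ll N ^ A)) := by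
      rw [← sum_filter, sum_const, nsmul_eq_mul, mul_comm]
      apply mul_le_mul_of_nonneg_left _ hN0.le
      have c2 : (((Icc 1 (X j)).filter (fun h => (fun _ : Fin 1 => h) ∈ Ex)).card : ℝ) ≤ Ex.card := by
        exact_mod_cast card_exc Ex
      refine c2.trans (hE2.trans ?_)
      rw [prod_const, card_univ, Fintype.card_fin, pow_one]
      exact mul_le_mul_of_nonneg_left hsm hXj0.le
    have c3 : (C / ll N ^ A + 1 / ll N ^ A) * (N * X j) = (X j) * (C / ll N ^ A * N) + N * ((X j) * (1 / ll N ^ A)) := by ring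
    rw [c3]
    linarith
  have hsum : (N : ℝ) * X j * |∑ x ∈ Box X, Φ x| ≤
      C * (Real.log (ll N) / √(ll N) ^ 2) * ((N : ℝ) * X j * ∑ x ∈ Box X, W x) +
        (Box X).card * ((C / ll N ^ A + 1 / ll N ^ A) * (N * X j)) := by
    rw [← abs_of_nonneg (by positivity : (0 : ℝ) ≤ (N : ℝ) * X j), ← abs_mul, ← avg2 X N i j hXi Φ,
      abs_of_nonneg (by positivity : (0 : ℝ) ≤ (N : ℝ) * X j), ← avg2 X N i j hXi W]
    refine (abs_sum_le_sum_abs _ _).trans ((sum_le_sum key).trans (le_of_eq ?_))
    rw [sum_add_distrib, ← mul_sum, sum_const, nsmul_eq_mul]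
  have hNX : (0 : ℝ) < (N : ℝ) * X j := by positivity
  have e4 : C * (Real.log (ll N) / √(ll N) ^ 2) * ((N : ℝ) * X j * ∑ x ∈ Box X, W x) +
        (Box X).card * ((C / ll N ^ A + 1 / ll N ^ A) * (N * X j)) =
      (N : ℝ) * X j * (C * (Real.log (ll N) / √(ll N) ^ 2) * ∑ x ∈ Box X, W x + (C / ll N ^ A + 1 / ll N ^ A) * (Box X).card) := by ring
  rw [e4] at hsum
  have h6 := le_of_mul_le_mul_left hsum hNX
  refine h6.trans ?_
  have h7 : 0 ≤ ∑ x ∈ Box X, W x := sum_nonneg fun _ _ => hW0 _
  have h8 : (C / ll N ^ A + 1 / ll N ^ A) = (C + 1) / ll N ^ A := by ring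
  rw [h8]
  have h9 : C * (Real.log (ll N) / √(ll N) ^ 2) * ∑ x ∈ Box X, W x ≤ (C + 1) * (Real.log (ll N) / √(ll N) ^ 2) * ∑ x ∈ Box X, W x := by
    gcongr
    linarith
  linarith

end Pool.Agent.H68.OP
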