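import Pool.Agent.H68.OP.Step

set_option autoImplicit false

/-! One form, total variation. -/

namespace Pool.Agent.H68.OP

open Finset
open ArithmeticFunction (cardFactors)

variable {V : Type} [Fintype V] [DecidableEq V]

/-- The mean over all `(r_1, ..., r_m)` in `[N]^m` of `g (Ω(r_1), ..., Ω(r_m))`. -/
noncomputable def mean (N m : ℕ) (g : (Fin m → ℕ) → ℂ) : ℂ :=
  (∑ r ∈ Fintype.piFinset (fun _ : Fin m => Icc 1 N), g (fun i => cardFactors (r i))) / (N : ℂ) ^ m

/-- The rate `log log log N / √(log log N)`. -/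
noncomputable def rate (N : ℕ) : ℝ := Real.log (ll N) / √(ll N)

lemma mean_eq (N m : ℕ) (g : (Fin m → ℕ) → ℂ) : Pool.Agent.Results.MP_e0aac0_nt.AlmostAllShifts.mean N m g = mean N m g := rfl

lemma mean_av (N m : ℕ) (g : (Fin m → ℕ) → ℂ) : Pool.Agent.TH445.OI.av N m g = mean N m g := rfl

lemma rate_eq (N : ℕ) : Pool.Agent.Results.MP_e0aac0_nt.AlmostAllShifts.rate N = rate N := rfl

/-- the mean in one variable -/
noncomputable def mean1 (N : ℕ) (g : ℕ → ℂ) : ℂ := (∑ r ∈ Icc 1 N, g (cardFactors r)) / N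

lemma mean_zero (N : ℕ) (g : (Fin 0 → ℕ) → ℂ) (l : Fin 0 → ℕ) : mean N 0 g = g l := by
  rw [← mean_av, Pool.Agent.TH445.OI.av_zero N g l]

lemma mean_succ (N k : ℕ) (g : (Fin (k + 1) → ℕ) → ℂ) :
    mean N (k + 1) g = mean1 N (fun r => mean N k (fun l => g (Fin.cons r l : Fin (k + 1) → ℕ))) := by
  rw [← mean_av, Pool.Agent.TH445.OI.av_succ]
  rfl

lemma mean_one (N : ℕ) (g : ℕ → ℂ) : mean N 1 (fun v => g (v 0)) = mean1 N g := by
  rw [mean_succ]
  congr 1
  funext r
  rw [mean_zero N _ Fin.elim0]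
  simp

lemma mean1_le (N : ℕ) (g : ℕ → ℂ) (hg : ∀ r, ‖g r‖ ≤ 1) : ‖mean1 N g‖ ≤ 1 := by
  unfold mean1
  rcases Nat.eq_zero_or_pos N with h | h
  · subst h; simp
  · have hN : (0 : ℝ) < N := by exact_mod_cast h
    rw [norm_div, Complex.norm_natCast, div_le_one hN]
    refine (norm_sum_le _ _).trans ?_
    calc _ ≤ ∑ _r ∈ Icc 1 N, (1 : ℝ) := sum_le_sum fun r _ => hg _
      _ = N := by simp

theorem step_tv (R P B : ℕ) (C₀ : ℝ) : ∃ κ : ℝ, 0 < κ ∧ ∃ C : ℝ, 0 < C ∧ ∃ N₀ : ℕ, ∀ N : ℕ, N₀ ≤ N →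
    ∀ (X : V → ℕ) (s : V → ℕ → ℕ), (∀ v, Spread N B P C₀ (X v) (s v)) → ∀ f : V → ℕ → ℕ,
    ∀ (E : Fin R → Finset V) (T : Fin R → ℕ), (∀ r, T r ≤ B * N) → ∀ (e : Finset V) (T₁ : ℕ), T₁ ≤ B * N →
    ∀ i j : V, i ≠ j → i ∈ e → j ∈ e → (∀ r, ¬ (i ∈ E r ∧ j ∈ E r)) → X i = N → (∀ m, s i m = m) →
    (∀ n, (f i n : ℝ) ≤ Real.log N ^ κ) →
    ∀ a : (V → ℕ) → (Fin R → ℕ) → ℕ → ℂ, (∀ c u v, ‖a c u v‖ ≤ 1) →
    ‖∑ x ∈ Box X, a (lab f x) (om s E T x) (cardFactors (form s e T₁ x)) -
        ∑ x ∈ Box X, mean1 N (a (lab f x) (om s E T x))‖ ≤ C * rate N * (Box X).card := by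
  obtain ⟨κ, hκ, C, hC, N1, h⟩ := Pool.Agent.Results.MP_e0aac0_nt.AlmostAllShifts.main R 1 P (B * (Fintype.card V + 2)) C₀
  obtain ⟨N2, h2⟩ := log_rate κ hκ
  obtain ⟨N3, hN3, hr⟩ := Pool.Agent.TH445.OI.rr_facts
  refine ⟨κ, hκ, C + 2, by positivity, max (max N1 N2) N3, ?_⟩
  intro N hN X s hs f E T hT e T₁ hT₁ i j hij hi hj hp hXi hsi hf a ha
  have hsm := h2 N (by omega)
  rw [rate_eq] at hsm
  obtain ⟨hrr, -, v16, hL1⟩ := hr N (by omega)
  have hr0 : 0 < rate N := hrr
  have hNr : 0 < N := by omega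
  have hN0 : (0 : ℝ) < N := by exact_mod_cast hNr
  set Φ : (V → ℕ) → ℂ := fun x => a (lab f x) (om s E T x) (cardFactors (form s e T₁ x)) -
        mean1 N (a (lab f x) (om s E T x)) with hΦ
  have hΦ1 : ∀ x, ‖Φ x‖ ≤ 2 := by
    intro x
    rw [hΦ]; simp only
    refine (norm_sub_le _ _).trans ?_
    have a1 := ha (lab f x) (om s E T x) (cardFactors (form s e T₁ x))
    have a2 := mean1_le N (a (lab f x) (om s E T x)) (fun r => ha _ _ _)
    linarith
  rcases Nat.eq_zero_or_pos (X j) with hXj | hXj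
  · rw [box_empty hXj]
    simp
  have hXj0 : (0 : ℝ) < X j := by exact_mod_cast hXj
  have hsB : ∀ v, ∀ m ∈ Icc 1 (X v), s v m ≤ B * N := fun v => (hs v).1
  have key : ∀ x ∈ Box X, ‖∑ h ∈ Icc 1 (X j), ∑ n ∈ Icc 1 N, Φ (Function.update (Function.update x j h) i n)‖ ≤
      (C + 2) * rate N * (N * X j) := by
    intro x hx
    obtain ⟨Ex, hE1, hE2, hE3⟩ := h N (by omega) (f i) hf (tt s E T i x) (tt_le hsB hx E T hT i) (fun _ => X j)
      (fun _ m => s j m + (∑ v ∈ (e.erase i).erase j, s v (x v) + T₁)) (fun _ => by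
        apply spread2
        apply spread_shift (hs j)
        have h3 := sum_le_of_box hsB hx ((e.erase i).erase j)
        have h4 : (B * (Fintype.card V + 2)) * N = Fintype.card V * (B * N) + 2 * (B * N) := by ring
        omega)
    have hlab : ∀ h n, lab f (Function.update (Function.update x j h) i n) =
        fun v => if v = i then f i n else lab f (Function.update x j h) v := fun h n => lab_update f _ i n
    have hom : ∀ h n, om s E T (Function.update (Function.update x j h) i n) =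
        fun r => if i ∈ E r then cardFactors (n + tt s E T i x r) else om s E T (Function.update x j h) r :=
      fun h n => om_update s E T x i j h n hsi hp
    have hform : ∀ h n, form s e T₁ (Function.update (Function.update x j h) i n) =
        n + (s j h + (∑ v ∈ (e.erase i).erase j, s v (x v) + T₁)) := fun h n => form_pair hij hi hj hsi
    have good : ∀ h ∈ Icc 1 (X j), (fun _ : Fin 1 => h) ∉ Ex →
        ‖∑ n ∈ Icc 1 N, Φ (Function.update (Function.update x j h) i n)‖ ≤ C * rate N * N := by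
      intro h0 hh0 hEx
      have h5 := hE3 (fun _ => h0) (Fintype.mem_piFinset.2 fun _ => hh0) hEx
        (fun c u v => a (fun v => if v = i then c else lab f (Function.update x j h0) v)
          (fun r => if i ∈ E r then u r else om s E T (Function.update x j h0) r) (v 0))
        (fun c u v => ha _ _ _)
      simp only [mean_eq, rate_eq, mean_one] at h5
      have e1 : ∀ n, Φ (Function.update (Function.update x j h0) i n) =
          a (fun v => if v = i then f i n else lab f (Function.update x j h0) v)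
            (fun r => if i ∈ E r then cardFactors (n + tt s E T i x r) else om s E T (Function.update x j h0) r)
            (cardFactors (n + (s j h0 + (∑ v ∈ (e.erase i).erase j, s v (x v) + T₁)))) -
          mean1 N (a (fun v => if v = i then f i n else lab f (Function.update x j h0) v)
            (fun r => if i ∈ E r then cardFactors (n + tt s E T i x r) else om s E T (Function.update x j h0) r)) := by
        intro n
        rw [hΦ]; simp only
        rw [hlab, hom, hform]
      simp only [e1]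
      rw [← mul_sub, ← sum_sub_distrib, norm_mul, norm_div, norm_one, Complex.norm_natCast, one_div, inv_mul_le_iff₀ hN0] at h5
      refine h5.trans (le_of_eq ?_)
      ring
    have bad : ∀ h ∈ Icc 1 (X j), ‖∑ n ∈ Icc 1 N, Φ (Function.update (Function.update x j h) i n)‖ ≤ 2 * N := by
      intro h0 _
      refine (norm_sum_le _ _).trans ?_
      calc _ ≤ ∑ _n ∈ Icc 1 N, (2 : ℝ) := sum_le_sum fun n _ => hΦ1 _
        _ = 2 * N := by simp; ring
    have allh : ∀ h ∈ Icc 1 (X j), ‖∑ n ∈ Icc 1 N, Φ (Function.update (Function.update x j h) i n)‖ ≤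
        C * rate N * N + (if (fun _ : Fin 1 => h) ∈ Ex then 2 * (N : ℝ) else 0) := by
      intro h0 hh0
      by_cases hEx : (fun _ : Fin 1 => h0) ∈ Ex
      · rw [if_pos hEx]
        have b1 := bad h0 hh0
        have b2 : 0 ≤ C * rate N * N := by positivity
        linarith
      · rw [if_neg hEx, add_zero]
        exact good h0 hh0 hEx
    refine (norm_sum_le _ _).trans ((sum_le_sum allh).trans ?_)
    rw [sum_add_distrib, sum_const, Nat.card_Icc, Nat.add_sub_cancel, nsmul_eq_mul]
    have c1 : ∑ h ∈ Icc 1 (X j), (if (fun _ : Fin 1 => h) ∈ Ex then 2 * (N : ℝ) else 0) ≤ 2 * N * ((X j) * rate N) := by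
      rw [← sum_filter, sum_const, nsmul_eq_mul, mul_comm]
      apply mul_le_mul_of_nonneg_left _ (by positivity)
      have c2 : (((Icc 1 (X j)).filter (fun h => (fun _ : Fin 1 => h) ∈ Ex)).card : ℝ) ≤ Ex.card := by
        exact_mod_cast card_exc Ex
      refine c2.trans (hE2.trans ?_)
      rw [prod_const, card_univ, Fintype.card_fin, pow_one]
      exact mul_le_mul_of_nonneg_left hsm hXj0.le
    have c3 : (C + 2) * rate N * (N * X j) = (X j) * (C * rate N * N) + 2 * N * ((X j) * rate N) := by ring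
    rw [c3]
    linarith
  have hsum : (N : ℝ) * X j * ‖∑ x ∈ Box X, Φ x‖ ≤ (Box X).card * ((C + 2) * rate N * (N * X j)) := by
    have e0 : (N : ℝ) * X j = ‖(N : ℂ) * X j‖ := by rw [norm_mul, Complex.norm_natCast, Complex.norm_natCast]
    rw [e0, ← norm_mul, ← avg2 X N i j hXi Φ, ← e0]
    refine (norm_sum_le _ _).trans ((sum_le_sum key).trans (le_of_eq ?_))
    rw [sum_const, nsmul_eq_mul]
  have hNX : (0 : ℝ) < (N : ℝ) * X j := by positivity
  have e4 : (Box X).card * ((C + 2) * rate N * (N * X j)) = (N : ℝ) * X j * ((C + 2) * rate N * (Box X).card) := by ring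
  rw [e4] at hsum
  have h6 := le_of_mul_le_mul_left hsum hNX
  rw [hΦ] at h6
  simp only at h6
  rw [sum_sub_distrib] at h6
  exact h6

end Pool.Agent.H68.OP
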