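import Pool.Agent.H68.OP.Step
import Pool.Agent.H68.GR.Bil

set_option autoImplicit false

/-! Fourier uniform functions at forms in several variables. -/

namespace Pool.Agent.H68.OP

open Finset
open Pool.Agent.H807R2.Dav

variable {V : Type} [Fintype V] [DecidableEq V]

/-- `f` does not depend on the coordinate `i`. -/
def Blind {M : Type} (f : (V → ℕ) → M) (i : V) : Prop := ∀ (x : V → ℕ) (t : ℕ), f (Function.update x i t) = f x

/-- `w` is a product of two functions bounded by one, the first of which does not depend on the coordinate `u`,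
the second not on the coordinate `v`. -/
def Split (w : (V → ℕ) → ℂ) (u v : V) : Prop :=
  ∃ F G : (V → ℕ) → ℂ, (∀ x, ‖F x‖ ≤ 1) ∧ (∀ x, ‖G x‖ ≤ 1) ∧ Blind F u ∧ Blind G v ∧ ∀ x, w x = F x * G x

/-- `y = a x_u + b x_v + c` with `1 ≤ a, b ≤ A` and a function `c ≤ A N` of the other variables. -/
def IsForm (A N : ℕ) (y : (V → ℕ) → ℕ) (u v : V) : Prop :=
  u ≠ v ∧ ∃ (a b : ℕ) (c : (V → ℕ) → ℕ), 1 ≤ a ∧ a ≤ A ∧ 1 ≤ b ∧ b ≤ A ∧ (∀ x, c x ≤ A * N) ∧ Blind c u ∧ Blind c v ∧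
    ∀ x, y x = a * x u + b * x v + c x

omit [Fintype V] in
lemma split_one {w k : (V → ℕ) → ℂ} {u v : V} (hw : Split w u v) (hk : ∀ x, ‖k x‖ ≤ 1) (hb : Blind k u ∨ Blind k v) :
    Split (fun x => w x * k x) u v := by
  obtain ⟨F, G, hF, hG, hFu, hGv, hwe⟩ := hw
  rcases hb with h | h
  · refine ⟨fun x => F x * k x, G, fun x => ?_, hG, fun x t => ?_, hGv, fun x => ?_⟩
    · rw [norm_mul]
      exact mul_le_one₀ (hF x) (norm_nonneg _) (hk x)
    · simp only [hFu x t, h x t]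
    · simp only [hwe x]
      ring
  · refine ⟨F, fun x => G x * k x, hF, fun x => ?_, hFu, fun x t => ?_, fun x => ?_⟩
    · rw [norm_mul]
      exact mul_le_one₀ (hG x) (norm_nonneg _) (hk x)
    · simp only [hGv x t, h x t]
    · simp only [hwe x]
      ring

omit [Fintype V] in
lemma split_many {ι : Type*} [DecidableEq ι] {u v : V} (T : Finset ι) (k : ι → (V → ℕ) → ℂ)
    (hk : ∀ e ∈ T, ∀ x, ‖k e x‖ ≤ 1) (hb : ∀ e ∈ T, Blind (k e) u ∨ Blind (k e) v) {w : (V → ℕ) → ℂ} (hw : Split w u v) :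
    Split (fun x => w x * ∏ e ∈ T, k e x) u v := by
  induction T using Finset.induction_on with
  | empty => simpa using hw
  | insert e T he ih =>
    have h1 := ih (fun e' h' => hk e' (mem_insert_of_mem h')) (fun e' h' => hb e' (mem_insert_of_mem h'))
    have h2 := split_one h1 (hk e (mem_insert_self _ _)) (hb e (mem_insert_self _ _))
    convert h2 using 2 with x
    rw [prod_insert he]
    ring

lemma star_ee (t : ℝ) : (starRingEnd ℂ) (ee t) = ee (-t) := by
  unfold ee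
  rw [← Complex.exp_conj]
  congr 1
  simp only [map_mul, Complex.conj_ofReal, Complex.conj_I, map_ofNat]
  push_cast
  ring

lemma sup_re (K : ℕ) (g : ℕ → ℂ) (η : ℝ) (hsup : ∀ α : ℝ, ‖∑ n ∈ Icc 1 K, g n * ee ((n : ℝ) * α)‖ ≤ η) (α : ℝ) :
    ‖∑ n ∈ Icc 1 K, (((g n).re : ℝ) : ℂ) * ee ((n : ℝ) * α)‖ ≤ η ∧
    ‖∑ n ∈ Icc 1 K, (((g n).im : ℝ) : ℂ) * ee ((n : ℝ) * α)‖ ≤ η := by
  set S1 := ∑ n ∈ Icc 1 K, g n * ee ((n : ℝ) * α) with hS1
  set S2 := ∑ n ∈ Icc 1 K, g n * ee ((n : ℝ) * (-α)) with hS2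
  have h1 := hsup α
  have h2 := hsup (-α)
  have hc : (starRingEnd ℂ) S2 = ∑ n ∈ Icc 1 K, (starRingEnd ℂ) (g n) * ee ((n : ℝ) * α) := by
    rw [hS2, map_sum]
    apply sum_congr rfl
    intro n _
    rw [map_mul, star_ee]
    congr 2
    ring
  have hn : ‖(starRingEnd ℂ) S2‖ ≤ η := by rw [RCLike.norm_conj]; exact h2
  constructor
  · have e : ∑ n ∈ Icc 1 K, (((g n).re : ℝ) : ℂ) * ee ((n : ℝ) * α) = (S1 + (starRingEnd ℂ) S2) / 2 := by
      rw [hc, hS1, ← sum_add_distrib, sum_div]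
      apply sum_congr rfl
      intro n _
      rw [← add_mul, Complex.add_conj]
      push_cast
      ring
    rw [e, norm_div, Complex.norm_ofNat]
    have := norm_add_le S1 ((starRingEnd ℂ) S2)
    linarith
  · have e : ∑ n ∈ Icc 1 K, (((g n).im : ℝ) : ℂ) * ee ((n : ℝ) * α) = (S1 - (starRingEnd ℂ) S2) / (2 * Complex.I) := by
      rw [hc, hS1, ← sum_sub_distrib, sum_div]
      apply sum_congr rfl
      intro n _
      rw [← sub_mul, Complex.sub_conj]
      have hI : Complex.I ≠ 0 := Complex.I_ne_zero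
      push_cast
      field_simp
    rw [e, norm_div, norm_mul, Complex.norm_ofNat, Complex.norm_I]
    have := norm_sub_le S1 ((starRingEnd ℂ) S2)
    linarith

theorem bilC (N K a b c : ℕ) (ha : 1 ≤ a) (hb : 1 ≤ b) (hK : ∀ x ∈ Icc 1 N, ∀ y ∈ Icc 1 N, a * x + b * y + c ≤ K)
    (g : ℕ → ℂ) (η : ℝ) (hsup : ∀ α : ℝ, ‖∑ n ∈ Icc 1 K, g n * ee ((n : ℝ) * α)‖ ≤ η)
    (F G : ℕ → ℂ) (hF : ∀ x, ‖F x‖ ≤ 1) (hG : ∀ x, ‖G x‖ ≤ 1) :
    ‖∑ x ∈ Icc 1 N, ∑ y ∈ Icc 1 N, F x * G y * g (a * x + b * y + c)‖ ≤ 2 * η * N := by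
  have h1 := Pool.Agent.H68.GR.bil N K a b c ha hb hK (fun n => (g n).re) η (fun α => (sup_re K g η hsup α).1) F G hF hG
  have h2 := Pool.Agent.H68.GR.bil N K a b c ha hb hK (fun n => (g n).im) η (fun α => (sup_re K g η hsup α).2) F G hF hG
  have e : ∑ x ∈ Icc 1 N, ∑ y ∈ Icc 1 N, F x * G y * g (a * x + b * y + c) =
      ∑ x ∈ Icc 1 N, ∑ y ∈ Icc 1 N, F x * G y * (((g (a * x + b * y + c)).re : ℝ) : ℂ) +
      Complex.I * ∑ x ∈ Icc 1 N, ∑ y ∈ Icc 1 N, F x * G y * (((g (a * x + b * y + c)).im : ℝ) : ℂ) := by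
    simp only [mul_sum, ← sum_add_distrib]
    apply sum_congr rfl
    intro x _
    apply sum_congr rfl
    intro y _
    conv_lhs => rw [← Complex.re_add_im (g (a * x + b * y + c))]
    ring
  rw [e]
  refine (norm_add_le _ _).trans ?_
  rw [norm_mul, Complex.norm_I, one_mul]
  linarith

/-- one form -/
lemma one_form (A N : ℕ) (y : (V → ℕ) → ℕ) (u v : V) (hy : IsForm A N y u v) (g : ℕ → ℂ) (η : ℝ)
    (hsup : ∀ α : ℝ, ‖∑ n ∈ Icc 1 (3 * A * N), g n * ee ((n : ℝ) * α)‖ ≤ η)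
    (w : (V → ℕ) → ℂ) (hw : Split w u v) :
    N * ‖∑ x ∈ Box (fun _ : V => N), w x * g (y x)‖ ≤ (Box (fun _ : V => N)).card * (2 * η) := by
  obtain ⟨huv, a, b, c, ha, haA, hb, hbA, hc, hcu, hcv, hyx⟩ := hy
  obtain ⟨F, G, hF, hG, hFu, hGv, hwe⟩ := hw
  rcases Nat.eq_zero_or_pos N with hN | hN
  · subst hN
    have hη : 0 ≤ η := (norm_nonneg _).trans (hsup 0)
    simp only [Nat.cast_zero, zero_mul]
    positivity
  have hN0 : (0 : ℝ) < N := by exact_mod_cast hN
  set Φ : (V → ℕ) → ℂ := fun x => w x * g (y x) with hΦ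
  have h1 := avg2 (fun _ : V => N) N u v rfl Φ
  have h2 : ∀ x ∈ Box (fun _ : V => N), ‖∑ h ∈ Icc 1 N, ∑ n ∈ Icc 1 N, Φ (Function.update (Function.update x v h) u n)‖ ≤
      2 * η * N := by
    intro x hx
    have e1 : ∀ h n, Φ (Function.update (Function.update x v h) u n) =
        G (Function.update x u n) * F (Function.update x v h) * g (a * n + b * h + c x) := by
      intro h n
      rw [hΦ]; simp only
      rw [hwe, hyx, hFu, hcu, hcv]
      have e2 : Function.update (Function.update x v h) u n = Function.update (Function.update x u n) v h :=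
        Function.update_comm huv.symm h n x
      have e3 : G (Function.update (Function.update x v h) u n) = G (Function.update x u n) := by
        rw [e2, hGv]
      rw [e3, Function.update_self, Function.update_of_ne huv.symm, Function.update_self]
      ring
    rw [sum_comm]
    simp only [e1]
    apply bilC N (3 * A * N) a b (c x) ha hb _ g η hsup (fun n => G (Function.update x u n)) (fun h => F (Function.update x v h))
      (fun _ => hG _) (fun _ => hF _)
    intro n hn h hh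
    rw [mem_Icc] at hn hh
    have i1 : a * n ≤ A * N := Nat.mul_le_mul haA hn.2
    have i2 : b * h ≤ A * N := Nat.mul_le_mul hbA hh.2
    have i3 := hc x
    have i4 : 3 * A * N = A * N + A * N + A * N := by ring
    omega
  have h3 : (N : ℝ) * N * ‖∑ x ∈ Box (fun _ : V => N), Φ x‖ ≤ (Box (fun _ : V => N)).card * (2 * η * N) := by
    have e0 : (N : ℝ) * N = ‖(N : ℂ) * N‖ := by rw [norm_mul, Complex.norm_natCast]
    rw [e0, ← norm_mul, ← h1]
    refine (norm_sum_le _ _).trans ((sum_le_sum h2).trans (le_of_eq ?_))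
    rw [sum_const, nsmul_eq_mul]
  have h4 : (N : ℝ) * (N * ‖∑ x ∈ Box (fun _ : V => N), Φ x‖) ≤ N * ((Box (fun _ : V => N)).card * (2 * η)) := by
    refine le_trans (le_of_eq ?_) (h3.trans (le_of_eq ?_)) <;> ring
  exact le_of_mul_le_mul_left h4 hN0

/-- all forms -/
theorem many_forms (A N : ℕ) (m : ℕ) : ∀ (y : Fin m → (V → ℕ) → ℕ) (u v : Fin m → V), (∀ r, IsForm A N (y r) (u r) (v r)) →
    (∀ r r', r < r' → Blind (y r') (u r) ∨ Blind (y r') (v r)) →
    ∀ (g : Fin m → ℕ → ℂ), (∀ r n, ‖g r n‖ ≤ 1) → ∀ μ : Fin m → ℂ, (∀ r, ‖μ r‖ ≤ 1) → ∀ η : Fin m → ℝ,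
    (∀ r, ∀ α : ℝ, ‖∑ n ∈ Icc 1 (3 * A * N), (g r n - μ r) * ee ((n : ℝ) * α)‖ ≤ η r) →
    ∀ w : (V → ℕ) → ℂ, (∀ r, Split w (u r) (v r)) →
    N * ‖∑ x ∈ Box (fun _ : V => N), w x * ∏ r, g r (y r x) - (∏ r, μ r) * ∑ x ∈ Box (fun _ : V => N), w x‖ ≤
      (Box (fun _ : V => N)).card * ∑ r, 2 * η r := by
  induction m with
  | zero =>
    intro y u v _ _ g _ μ _ η _ w _
    simp
  | succ m ih =>
    intro y u v hy hp g hg μ hμ η hη w hw
    have h1 := one_form A N (y 0) (u 0) (v 0) (hy 0) (fun n => g 0 n - μ 0) (η 0) (hη 0)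
      (fun x => w x * ∏ r : Fin m, g r.succ (y r.succ x))
      (split_many univ (fun r : Fin m => fun x => g r.succ (y r.succ x)) (fun r _ x => hg _ _) (fun r _ => by
        rcases hp 0 r.succ (Fin.succ_pos r) with h | h
        · left
          intro x t
          show g r.succ (y r.succ (Function.update x (u 0) t)) = g r.succ (y r.succ x)
          rw [h x t]
        · right
          intro x t
          show g r.succ (y r.succ (Function.update x (v 0) t)) = g r.succ (y r.succ x)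
          rw [h x t]) (hw 0))
    have h2 := ih (fun r => y r.succ) (fun r => u r.succ) (fun r => v r.succ) (fun r => hy r.succ)
      (fun r r' hr => hp r.succ r'.succ (Fin.succ_lt_succ_iff.2 hr)) (fun r => g r.succ) (fun r => hg r.succ)
      (fun r => μ r.succ) (fun r => hμ r.succ) (fun r => η r.succ) (fun r => hη r.succ) w (fun r => hw r.succ)
    have e : ∑ x ∈ Box (fun _ : V => N), w x * ∏ r, g r (y r x) - (∏ r, μ r) * ∑ x ∈ Box (fun _ : V => N), w x =
        ∑ x ∈ Box (fun _ : V => N), (w x * ∏ r : Fin m, g r.succ (y r.succ x)) * (g 0 (y 0 x) - μ 0) +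
        μ 0 * (∑ x ∈ Box (fun _ : V => N), w x * ∏ r : Fin m, g r.succ (y r.succ x) -
          (∏ r : Fin m, μ r.succ) * ∑ x ∈ Box (fun _ : V => N), w x) := by
      have e1 : ∀ x, w x * ∏ r, g r (y r x) = (w x * ∏ r : Fin m, g r.succ (y r.succ x)) * (g 0 (y 0 x) - μ 0) +
          μ 0 * (w x * ∏ r : Fin m, g r.succ (y r.succ x)) := by
        intro x
        rw [Fin.prod_univ_succ]
        ring
      rw [sum_congr rfl fun x _ => e1 x, sum_add_distrib, ← mul_sum, Fin.prod_univ_succ (fun r => μ r)]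
      ring
    rw [e, Fin.sum_univ_succ]
    have h3 := norm_add_le (∑ x ∈ Box (fun _ : V => N), (w x * ∏ r : Fin m, g r.succ (y r.succ x)) * (g 0 (y 0 x) - μ 0))
      (μ 0 * (∑ x ∈ Box (fun _ : V => N), w x * ∏ r : Fin m, g r.succ (y r.succ x) -
          (∏ r : Fin m, μ r.succ) * ∑ x ∈ Box (fun _ : V => N), w x))
    rw [norm_mul (μ 0)] at h3
    have h4 : ‖μ 0‖ * ‖∑ x ∈ Box (fun _ : V => N), w x * ∏ r : Fin m, g r.succ (y r.succ x) -
          (∏ r : Fin m, μ r.succ) * ∑ x ∈ Box (fun _ : V => N), w x‖ ≤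
        ‖∑ x ∈ Box (fun _ : V => N), w x * ∏ r : Fin m, g r.succ (y r.succ x) -
          (∏ r : Fin m, μ r.succ) * ∑ x ∈ Box (fun _ : V => N), w x‖ := mul_le_of_le_one_left (norm_nonneg _) (hμ 0)
    have hNn : (0 : ℝ) ≤ N := Nat.cast_nonneg _
    calc (N : ℝ) * ‖_ + _‖ ≤ N * (_ + _) := mul_le_mul_of_nonneg_left (h3.trans (add_le_add le_rfl h4)) hNn
      _ = N * _ + N * _ := mul_add _ _ _
      _ ≤ (Box (fun _ : V => N)).card * (2 * η 0) + (Box (fun _ : V => N)).card * ∑ r : Fin m, 2 * η r.succ :=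
          add_le_add h1 h2
      _ = _ := by ring

end Pool.Agent.H68.OP
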